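import Pool.Agent.Mg.F737f38q.Geba001

set_option linter.all false

namespace Pool.Agent.MP_737f38_pr

open Finset Filter Topology

lemma mass_two (a b : ℝ) :
    bernoulliSumMass ![a, b] 0 = (1 - a) * (1 - b) ∧
    bernoulliSumMass ![a, b] 1 = a * (1 - b) + (1 - a) * b ∧
    bernoulliSumMass ![a, b] 2 = a * b := by
  have hu : (univ : Finset (Fin 2)) = insert 0 (insert 1 ∅) := by decide
  have h1 : (0 : Fin 2) ∉ (insert 1 ∅ : Finset (Fin 2)) := by decide
  have h2 : (1 : Fin 2) ∉ (∅ : Finset (Fin 2)) := by decide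
  refine ⟨?_, ?_, ?_⟩ <;>
  · rw [mass_eq_cf _ (fun _ => 0), hu]
    simp only [cf_insert _ _ _ h1, cf_insert _ _ _ h2, cf_empty]
    simp
    try ring

noncomputable def FF (q p w : ℝ) : ℝ :=
  ((1 - p) ^ 2 - w ^ 2) ^ q + (2 * p * (1 - p) + 2 * w ^ 2) ^ q + (p ^ 2 - w ^ 2) ^ q

noncomputable def FF1 (q p w : ℝ) : ℝ :=
  (-2 * w) * q * ((1 - p) ^ 2 - w ^ 2) ^ (q - 1)
    + (4 * w) * q * (2 * p * (1 - p) + 2 * w ^ 2) ^ (q - 1)
    + (-2 * w) * q * (p ^ 2 - w ^ 2) ^ (q - 1)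

noncomputable def FF2 (q p w : ℝ) : ℝ :=
  (-2 * q * ((1 - p) ^ 2 - w ^ 2) ^ (q - 1)
      + (-2 * w) * q * ((-2 * w) * (q - 1) * ((1 - p) ^ 2 - w ^ 2) ^ (q - 1 - 1)))
    + (4 * q * (2 * p * (1 - p) + 2 * w ^ 2) ^ (q - 1)
      + (4 * w) * q * ((4 * w) * (q - 1) * (2 * p * (1 - p) + 2 * w ^ 2) ^ (q - 1 - 1)))
    + (-2 * q * (p ^ 2 - w ^ 2) ^ (q - 1)
      + (-2 * w) * q * ((-2 * w) * (q - 1) * (p ^ 2 - w ^ 2) ^ (q - 1 - 1)))

lemma hd_a (c w : ℝ) : HasDerivAt (fun w : ℝ => c - w ^ 2) (-2 * w) w := by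
  have := (hasDerivAt_pow 2 w).const_sub c
  refine this.congr_deriv ?_
  norm_num

lemma hd_b (c w : ℝ) : HasDerivAt (fun w : ℝ => c + 2 * w ^ 2) (4 * w) w := by
  have := ((hasDerivAt_pow 2 w).const_mul 2).const_add c
  refine this.congr_deriv ?_
  norm_num; ring

lemma hd_l (c q w : ℝ) : HasDerivAt (fun w : ℝ => c * w * q) (c * q) w := by
  simpa using ((hasDerivAt_id w).const_mul c).mul_const q

lemma hasDerivAt_FF {q p w : ℝ} (hA : 0 < (1 - p) ^ 2 - w ^ 2)
    (hB : 0 < 2 * p * (1 - p) + 2 * w ^ 2) (hC : 0 < p ^ 2 - w ^ 2) :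
    HasDerivAt (FF q p) (FF1 q p w) w :=
  (((hd_a _ w).rpow_const (Or.inl hA.ne')).add ((hd_b _ w).rpow_const (Or.inl hB.ne'))).add
    ((hd_a _ w).rpow_const (Or.inl hC.ne'))

lemma hasDerivAt_FF1 {q p w : ℝ} (hA : 0 < (1 - p) ^ 2 - w ^ 2)
    (hB : 0 < 2 * p * (1 - p) + 2 * w ^ 2) (hC : 0 < p ^ 2 - w ^ 2) :
    HasDerivAt (FF1 q p) (FF2 q p w) w :=
  (((hd_l (-2) q w).mul ((hd_a _ w).rpow_const (Or.inl hA.ne'))).add
    ((hd_l 4 q w).mul ((hd_b _ w).rpow_const (Or.inl hB.ne')))).add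
    ((hd_l (-2) q w).mul ((hd_a _ w).rpow_const (Or.inl hC.ne')))

lemma exists_strictConcave {q : ℝ} (hq : 1 < q) : ∃ p η : ℝ, 0 < η ∧ η < p ∧ p < 1 / 2 ∧
    StrictConcaveOn ℝ (Set.Icc (-η) η) (FF q p) := by
  have hq1 : 0 < q - 1 := by linarith
  set M : ℝ := (2 : ℝ) ^ (1 / (q - 1)) with hM
  have hM1 : 1 < M := Real.one_lt_rpow (by norm_num) (by positivity)
  have hMq : M ^ (q - 1) = 2 := by
    rw [hM, ← Real.rpow_mul (by norm_num), one_div_mul_cancel hq1.ne', Real.rpow_one]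
  set p : ℝ := 1 / (2 * M + 1) with hp
  have hp0 : 0 < p := by rw [hp]; positivity
  have hp1 : p < 1 / 2 := by
    rw [hp]; exact one_div_lt_one_div_of_lt (by norm_num) (by linarith)
  have hA0 : 0 < (1 - p) ^ 2 := pow_pos (by linarith) 2
  have hB0 : 0 < 2 * p * (1 - p) := mul_pos (by linarith) (by linarith)
  have hC0 : 0 < p ^ 2 := pow_pos hp0 2
  have hAB : (1 - p) ^ 2 = M * (2 * p * (1 - p)) := by
    rw [hp]; field_simp; ring
  have h0 : FF2 q p 0 < 0 := by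
    have e : ((1 - p) ^ 2) ^ (q - 1) = 2 * (2 * p * (1 - p)) ^ (q - 1) := by
      rw [hAB, Real.mul_rpow (by linarith) hB0.le, hMq]
    have hC := Real.rpow_pos_of_pos hC0 (q - 1)
    simp only [FF2, mul_zero, zero_mul, add_zero, ne_eq, OfNat.ofNat_ne_zero, not_false_eq_true,
      zero_pow, sub_zero]
    rw [e]
    nlinarith
  have hcont : ContinuousAt (FF2 q p) 0 := by
    have c1 : ∀ e : ℝ, ContinuousAt (fun w : ℝ => ((1 - p) ^ 2 - w ^ 2) ^ e) 0 := fun e =>
      ContinuousAt.rpow_const (by fun_prop) (Or.inl (by simpa using hA0.ne'))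
    have c2 : ∀ e : ℝ, ContinuousAt (fun w : ℝ => (2 * p * (1 - p) + 2 * w ^ 2) ^ e) 0 := fun e =>
      ContinuousAt.rpow_const (by fun_prop) (Or.inl (by simpa using hB0.ne'))
    have c3 : ∀ e : ℝ, ContinuousAt (fun w : ℝ => (p ^ 2 - w ^ 2) ^ e) 0 := fun e =>
      ContinuousAt.rpow_const (by fun_prop) (Or.inl (by simpa using hC0.ne'))
    have c4 : ∀ c : ℝ, ContinuousAt (fun w : ℝ => c * w) 0 := fun c => by fun_prop
    unfold FF2
    refine (((continuousAt_const.mul (c1 _)).add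
        (((c4 _).mul continuousAt_const).mul (((c4 _).mul continuousAt_const).mul (c1 _)))).add
      ((continuousAt_const.mul (c2 _)).add
        (((c4 _).mul continuousAt_const).mul (((c4 _).mul continuousAt_const).mul (c2 _))))).add
      ((continuousAt_const.mul (c3 _)).add
        (((c4 _).mul continuousAt_const).mul (((c4 _).mul continuousAt_const).mul (c3 _))))
  have hev : ∀ᶠ w in 𝓝 (0 : ℝ), FF2 q p w < 0 := hcont.eventually_lt continuousAt_const h0
  obtain ⟨ε, hε, hball⟩ := Metric.eventually_nhds_iff.1 hev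
  set η := min ε p / 2 with hη
  have hmin : 0 < min ε p := lt_min hε hp0
  have hη0 : 0 < η := by rw [hη]; linarith
  have hηε : η < ε := by rw [hη]; linarith [min_le_left ε p]
  have hηp : η < p := by rw [hη]; linarith [min_le_right ε p]
  have hpos : ∀ w : ℝ, -p < w → w < p → 0 < (1 - p) ^ 2 - w ^ 2 ∧
      0 < 2 * p * (1 - p) + 2 * w ^ 2 ∧ 0 < p ^ 2 - w ^ 2 := by
    intro w h1 h2
    refine ⟨by nlinarith, by nlinarith [sq_nonneg w], by nlinarith⟩
  refine ⟨p, η, hη0, hηp, hp1, ?_⟩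
  apply strictConcaveOn_of_deriv2_neg (convex_Icc _ _)
  · intro w hw
    obtain ⟨a, b, c⟩ := hpos w (by linarith [hw.1]) (by linarith [hw.2])
    exact (hasDerivAt_FF a b c).continuousAt.continuousWithinAt
  · intro w hw
    rw [interior_Icc] at hw
    obtain ⟨a, b, c⟩ := hpos w (by linarith [hw.1]) (by linarith [hw.2])
    have e : deriv (FF q p) =ᶠ[𝓝 w] FF1 q p := by
      filter_upwards [Ioo_mem_nhds (show -p < w by linarith [hw.1]) (show w < p by linarith [hw.2])]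
        with v hv
      obtain ⟨a, b, c⟩ := hpos v hv.1 hv.2
      exact (hasDerivAt_FF a b c).deriv
    have : deriv^[2] (FF q p) w = FF2 q p w := by
      show deriv (deriv (FF q p)) w = _
      rw [e.deriv_eq, (hasDerivAt_FF1 a b c).deriv]
    rw [this]
    apply hball
    rw [Real.dist_eq, sub_zero, abs_lt]
    constructor <;> linarith [hw.1, hw.2]

theorem exists_convex_path {q : ℝ} (hq : 1 < q) : ∃ m : ℕ, 1 ≤ m ∧ ∃ p0 p1 : Fin m → ℝ,
    (∀ i, p0 i ∈ Set.Icc (0 : ℝ) 1) ∧ (∀ i, p1 i ∈ Set.Icc (0 : ℝ) 1) ∧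
    ConvexOn ℝ (Set.Icc (0 : ℝ) 1) (pathEntropy q p0 p1) ∧
    ¬ ∃ a b : ℝ, ∀ t ∈ Set.Icc (0 : ℝ) 1, pathEntropy q p0 p1 t = a + b * t := by
  obtain ⟨p, η, hη0, hηp, hp1, hconc⟩ := exists_strictConcave hq
  have h0 : ∀ i, (![p - η, p + η] : Fin 2 → ℝ) i ∈ Set.Icc (0 : ℝ) 1 := by
    intro i; fin_cases i <;> simp <;> constructor <;> linarith
  have h1 : ∀ i, (![p + η, p - η] : Fin 2 → ℝ) i ∈ Set.Icc (0 : ℝ) 1 := by
    intro i; fin_cases i <;> simp <;> constructor <;> linarith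
  have hF : ∀ t, powSum q ![p - η, p + η] ![p + η, p - η] t = FF q p (η * (2 * t - 1)) := by
    intro t
    have e : (fun i => (1 - t) * (![p - η, p + η] : Fin 2 → ℝ) i
        + t * (![p + η, p - η] : Fin 2 → ℝ) i)
        = ![p + η * (2 * t - 1), p - η * (2 * t - 1)] := by
      funext i; fin_cases i <;> simp <;> ring
    obtain ⟨a, b, c⟩ := mass_two (p + η * (2 * t - 1)) (p - η * (2 * t - 1))
    unfold powSum FF
    rw [e, sum_range_succ, sum_range_succ, sum_range_one, a, b, c]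
    congr 1
    · congr 1 <;> congr 1 <;> ring
    · congr 1; ring
  have hmem : ∀ t ∈ Set.Icc (0 : ℝ) 1, η * (2 * t - 1) ∈ Set.Icc (-η) η := by
    intro t ht
    constructor <;> nlinarith [ht.1, ht.2]
  have hc : ConcaveOn ℝ (Set.Icc (0 : ℝ) 1) (powSum q ![p - η, p + η] ![p + η, p - η]) := by
    refine ⟨convex_Icc 0 1, fun x hx y hy a b ha hb hab => ?_⟩
    have := hconc.concaveOn.2 (hmem x hx) (hmem y hy) ha hb hab
    rw [hF, hF, hF]
    refine this.trans_eq ?_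
    congr 1
    simp only [smul_eq_mul]
    linear_combination (-η) * hab
  have hpos := fun t ht => powSum_pos q h0 h1 (t := t) ht
  have hE : ∀ t, pathEntropy q ![p - η, p + η] ![p + η, p - η] t =
      -((1 / (q - 1)) * Real.log (powSum q ![p - η, p + η] ![p + η, p - η] t)) := by
    intro t
    simp only [pathEntropy, renyiEntropy, if_neg hq.ne', powSum]
    have : 1 - q = -(q - 1) := by ring
    rw [this, div_neg]; ring
  have hq1 : 0 < 1 / (q - 1) := one_div_pos.2 (by linarith)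
  refine ⟨2, by norm_num, _, _, h0, h1, ?_, ?_⟩
  · have a := ((concaveOn_log_comp hc hpos).smul hq1.le).neg
    refine a.congr fun t _ => ?_
    rw [hE]; simp
  · rintro ⟨a, b, hab⟩
    have e0 := hab 0 (by simp)
    have e1 := hab 1 (by simp)
    have e2 := hab (1 / 2) (by constructor <;> norm_num)
    have p0 := hpos 1 (by simp)
    have p2 := hpos (1 / 2) (by constructor <;> norm_num)
    rw [hE] at e0 e1 e2
    rw [hF] at e0 e1 e2 p0 p2
    have s1 : η * (2 * 0 - 1) = -η := by ring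
    have s2 : η * (2 * 1 - 1) = η := by ring
    have s3 : η * (2 * (1 / 2) - 1) = 0 := by ring
    have s4 : FF q p (-η) = FF q p η := by simp [FF]
    rw [s1, s4] at e0
    rw [s2] at e1 p0
    rw [s3] at e2 p2
    have m1 : -η ∈ Set.Icc (-η) η := by constructor <;> linarith
    have m2 : η ∈ Set.Icc (-η) η := by constructor <;> linarith
    have m3 : -η ≠ η := by linarith
    have m4 : (0 : ℝ) < 1 / 2 := by norm_num
    have hs := hconc.2 m1 m2 m3 m4 m4 (by norm_num)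
    simp only [smul_eq_mul] at hs
    have s5 : 1 / 2 * -η + 1 / 2 * η = 0 := by ring
    rw [s4, s5] at hs
    have hl : Real.log (FF q p η) < Real.log (FF q p 0) := Real.log_lt_log p0 (by linarith)
    have := mul_lt_mul_of_pos_left hl hq1
    linarith

theorem critical_iff (c : ℝ) : IsCriticalExponent c ↔ c = 1 := by
  constructor
  · rintro ⟨hc, h1, h2⟩
    have key : ∀ {f : ℝ → ℝ}, ConcaveOn ℝ (Set.Icc (0 : ℝ) 1) f → ConvexOn ℝ (Set.Icc (0 : ℝ) 1) f →
        ∃ a b : ℝ, ∀ t ∈ Set.Icc (0 : ℝ) 1, f t = a + b * t := by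
      intro f hf hg
      refine ⟨f 0, f 1 - f 0, fun t ht => ?_⟩
      have m0 : (0 : ℝ) ∈ Set.Icc (0 : ℝ) 1 := by simp
      have m1 : (1 : ℝ) ∈ Set.Icc (0 : ℝ) 1 := by simp
      have a := hf.2 m0 m1 (sub_nonneg.2 ht.2) ht.1 (by ring)
      have b := hg.2 m0 m1 (sub_nonneg.2 ht.2) ht.1 (by ring)
      simp only [smul_eq_mul, mul_zero, mul_one, zero_add] at a b
      linarith
    rcases lt_trichotomy c 1 with h | h | h
    · obtain ⟨m, hm, p0, p1, a0, a1, hcv, hna⟩ := h2 1 h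
      exact absurd (key (pathEntropy_concave one_pos le_rfl hm p0 p1 a0 a1) hcv) hna
    · exact h
    · obtain ⟨m, hm, p0, p1, a0, a1, hcv, hna⟩ := exists_convex_path h
      exact absurd (key (h1 c hc le_rfl m hm p0 p1 a0 a1) hcv) hna
  · rintro rfl
    exact ⟨one_pos, fun q hq hq1 m hm p0 p1 a0 a1 => pathEntropy_concave hq hq1 hm p0 p1 a0 a1,
      fun q hq => exists_convex_path hq⟩

end Pool.Agent.MP_737f38_pr
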