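import Mathlib
import Pool.Agent.MP_737f38_pr.Defs
import Pool.Agent.MP_737f38_pr.Coeff

set_option linter.all false

section

/-! A verified checker for nonnegativity of exponential polynomials in two variables
whose exponents are `a ρ + b` and whose coefficients are integer polynomials in `ρ ≥ 0`. -/

namespace Pool.Agent.MP_737f38_pr

/-- Horner evaluation. -/
noncomputable def pev (ρ : ℝ) : List ℤ → ℝ
  | [] => 0
  | c :: p => c + ρ * pev ρ p

def padd : List ℤ → List ℤ → List ℤ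
  | [], q => q
  | c :: p, [] => c :: p
  | c :: p, d :: q => (c + d) :: padd p q

def psmul (a : ℤ) (p : List ℤ) : List ℤ := p.map fun c => a * c

/-- multiplication by `a ρ + b`. -/
def pmulLin (a b : ℤ) (p : List ℤ) : List ℤ := padd (psmul b p) (0 :: psmul a p)

lemma pev_padd (ρ : ℝ) : ∀ p q, pev ρ (padd p q) = pev ρ p + pev ρ q
  | [], q => by simp [padd, pev]
  | c :: p, [] => by simp [padd, pev]
  | c :: p, d :: q => by
      simp only [padd, pev, pev_padd ρ p q]; push_cast; ring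

lemma pev_psmul (ρ : ℝ) (a : ℤ) : ∀ p, pev ρ (psmul a p) = a * pev ρ p
  | [] => by simp [psmul, pev]
  | c :: p => by
      have := pev_psmul ρ a p
      simp only [psmul, List.map_cons, pev] at this ⊢
      rw [this]; push_cast; ring

lemma pev_pmulLin (ρ : ℝ) (a b : ℤ) (p : List ℤ) :
    pev ρ (pmulLin a b p) = (a * ρ + b) * pev ρ p := by
  simp only [pmulLin, pev_padd, pev, pev_psmul]; push_cast; ring

lemma pev_nonneg {ρ : ℝ} (hρ : 0 ≤ ρ) : ∀ p : List ℤ, p.all (fun c => decide (0 ≤ c)) = true →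
    0 ≤ pev ρ p
  | [], _ => by simp [pev]
  | c :: p, h => by
      simp only [List.all_cons, Bool.and_eq_true, decide_eq_true_eq] at h
      have h1 := pev_nonneg hρ p h.2
      have h2 : (0 : ℝ) ≤ c := by exact_mod_cast h.1
      simp only [pev]; positivity

/-- A term: coefficient, exponent in the first variable, exponent in the second variable. -/
structure Term where
  c : List ℤ
  a : ℕ
  b : ℕ
  u : ℕ
  v : ℕ

noncomputable def Term.ev (ρ x y : ℝ) (t : Term) : ℝ :=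
  pev ρ t.c * (Real.exp (ρ * x) ^ t.a * Real.exp x ^ t.b) *
    (Real.exp (ρ * y) ^ t.u * Real.exp y ^ t.v)

noncomputable def ev (ρ : ℝ) (L : List Term) (x y : ℝ) : ℝ := (L.map (Term.ev ρ x y)).sum

def stepX (a b : ℕ) : List Term → List Term
  | [] => []
  | t :: L => if t.a = a ∧ t.b = b then stepX a b L
      else ⟨pmulLin ((t.a : ℤ) - a) ((t.b : ℤ) - b) t.c, t.a, t.b, t.u, t.v⟩ :: stepX a b L

def stepY (a b : ℕ) : List Term → List Term
  | [] => []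
  | t :: L => if t.u = a ∧ t.v = b then stepY a b L
      else ⟨pmulLin ((t.u : ℤ) - a) ((t.v : ℤ) - b) t.c, t.a, t.b, t.u, t.v⟩ :: stepY a b L

def total : List Term → List ℤ
  | [] => []
  | t :: L => padd t.c (total L)

def chainY : List (ℕ × ℕ) → List Term → Bool
  | [], L => L.isEmpty
  | g :: gs, L => (total L).all (fun c => decide (0 ≤ c)) && chainY gs (stepY g.1 g.2 L)

def chainX : List ((ℕ × ℕ) × List (ℕ × ℕ)) → List Term → Bool
  | [], L => L.isEmpty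
  | g :: gs, L => chainY g.2 L && chainX gs (stepX g.1.1 g.1.2 L)

lemma hasDerivAt_mono (ρ : ℝ) (a b : ℕ) (x : ℝ) :
    HasDerivAt (fun x => Real.exp (ρ * x) ^ a * Real.exp x ^ b)
      ((a * ρ + b) * (Real.exp (ρ * x) ^ a * Real.exp x ^ b)) x := by
  have h : (fun x => Real.exp (ρ * x) ^ a * Real.exp x ^ b)
      = fun x => Real.exp ((a * ρ + b) * x) := by
    funext x
    rw [← Real.exp_nat_mul, ← Real.exp_nat_mul, ← Real.exp_add]; congr 1; ring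
  have h2 := congrFun h x
  rw [h, h2]
  have := ((hasDerivAt_id x).const_mul (a * ρ + b)).exp
  simpa [mul_comm] using this

lemma hasDerivAt_evX (ρ : ℝ) (a b : ℕ) (x y : ℝ) : ∀ L : List Term,
    HasDerivAt (fun x => ev ρ L x y)
      ((a * ρ + b) * ev ρ L x y + ev ρ (stepX a b L) x y) x
  | [] => by simpa [ev, stepX] using hasDerivAt_const x (0 : ℝ)
  | t :: L => by
      have ih := hasDerivAt_evX ρ a b x y L
      have h1 := ((hasDerivAt_mono ρ t.a t.b x).const_mul (pev ρ t.c)).mul_const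
        (Real.exp (ρ * y) ^ t.u * Real.exp y ^ t.v)
      have h2 := h1.add ih
      have e : (fun x => ev ρ (t :: L) x y) = fun x =>
          pev ρ t.c * (Real.exp (ρ * x) ^ t.a * Real.exp x ^ t.b) *
            (Real.exp (ρ * y) ^ t.u * Real.exp y ^ t.v) + ev ρ L x y := by
        funext x; simp [ev, Term.ev]
      rw [e]
      refine HasDerivAt.congr_deriv h2 ?_
      by_cases hc : t.a = a ∧ t.b = b
      · simp only [stepX, if_pos hc]
        obtain ⟨h3, h4⟩ := hc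
        simp only [ev, List.map_cons, List.sum_cons, Term.ev, h3, h4]; ring
      · simp only [stepX, if_neg hc]
        simp only [ev, List.map_cons, List.sum_cons, Term.ev, pev_pmulLin]; push_cast; ring

lemma hasDerivAt_evY (ρ : ℝ) (a b : ℕ) (x y : ℝ) : ∀ L : List Term,
    HasDerivAt (fun y => ev ρ L x y)
      ((a * ρ + b) * ev ρ L x y + ev ρ (stepY a b L) x y) y
  | [] => by simpa [ev, stepY] using hasDerivAt_const y (0 : ℝ)
  | t :: L => by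
      have ih := hasDerivAt_evY ρ a b x y L
      have h1 := (hasDerivAt_mono ρ t.u t.v y).const_mul
        (pev ρ t.c * (Real.exp (ρ * x) ^ t.a * Real.exp x ^ t.b))
      have h2 := h1.add ih
      have e : (fun y => ev ρ (t :: L) x y) = fun y =>
          pev ρ t.c * (Real.exp (ρ * x) ^ t.a * Real.exp x ^ t.b) *
            (Real.exp (ρ * y) ^ t.u * Real.exp y ^ t.v) + ev ρ L x y := by
        funext y; simp [ev, Term.ev]
      rw [e]
      refine HasDerivAt.congr_deriv h2 ?_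
      by_cases hc : t.u = a ∧ t.v = b
      · simp only [stepY, if_pos hc]
        obtain ⟨h3, h4⟩ := hc
        simp only [ev, List.map_cons, List.sum_cons, Term.ev, h3, h4]; ring
      · simp only [stepY, if_neg hc]
        simp only [ev, List.map_cons, List.sum_cons, Term.ev, pev_pmulLin]; push_cast; ring

lemma nonneg_of_ode {f g : ℝ → ℝ} {γ : ℝ} (hd : ∀ x, HasDerivAt f (γ * f x + g x) x)
    (hg : ∀ x, 0 ≤ x → 0 ≤ g x) (h0 : 0 ≤ f 0) (x : ℝ) (hx : 0 ≤ x) : 0 ≤ f x := by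
  have hd' : ∀ x, HasDerivAt (fun x => Real.exp (-γ * x) * f x) (Real.exp (-γ * x) * g x) x := by
    intro x
    have h1 := (((hasDerivAt_id x).const_mul (-γ)).exp).mul (hd x)
    refine HasDerivAt.congr_deriv h1 ?_
    simp only [id]; ring
  have hm : MonotoneOn (fun x => Real.exp (-γ * x) * f x) (Set.Ici 0) := by
    apply monotoneOn_of_deriv_nonneg (convex_Ici 0)
    · exact fun x _ => (hd' x).continuousAt.continuousWithinAt
    · exact fun x _ => (hd' x).differentiableAt.differentiableWithinAt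
    · intro x hx
      rw [(hd' x).deriv]
      rw [interior_Ici] at hx
      exact mul_nonneg (Real.exp_pos _).le (hg x (le_of_lt hx))
  have h1 := hm (Set.mem_Ici.2 le_rfl) (Set.mem_Ici.2 hx) hx
  simp only [mul_zero, Real.exp_zero, one_mul] at h1
  have h2 : 0 ≤ Real.exp (-γ * x) * f x := h0.trans h1
  exact nonneg_of_mul_nonneg_right h2 (Real.exp_pos _) |> fun h => h

lemma ev_zero (ρ : ℝ) : ∀ L : List Term, ev ρ L 0 0 = pev ρ (total L)
  | [] => by simp [ev, total, pev]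
  | t :: L => by
      have ih := ev_zero ρ L
      simp only [ev] at ih
      simp [ev, total, pev_padd, Term.ev, ih]

lemma chainY_sound {ρ : ℝ} (hρ : 0 ≤ ρ) : ∀ (gs : List (ℕ × ℕ)) (L : List Term),
    chainY gs L = true → ∀ y, 0 ≤ y → 0 ≤ ev ρ L 0 y
  | [], L, h => by
      simp only [chainY, List.isEmpty_iff] at h
      subst h; intro y _; simp [ev]
  | g :: gs, L, h => by
      simp only [chainY, Bool.and_eq_true] at h
      have ih := chainY_sound hρ gs _ h.2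
      refine nonneg_of_ode (fun y => hasDerivAt_evY ρ g.1 g.2 0 y L) ih ?_
      rw [ev_zero]; exact pev_nonneg hρ _ h.1

lemma chainX_sound {ρ : ℝ} (hρ : 0 ≤ ρ) (y : ℝ) (hy : 0 ≤ y) :
    ∀ (gs : List ((ℕ × ℕ) × List (ℕ × ℕ))) (L : List Term),
    chainX gs L = true → ∀ x, 0 ≤ x → 0 ≤ ev ρ L x y
  | [], L, h => by
      simp only [chainX, List.isEmpty_iff] at h
      subst h; intro y _; simp [ev]
  | g :: gs, L, h => by
      simp only [chainX, Bool.and_eq_true] at h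
      have ih := chainX_sound hρ y hy gs _ h.2
      exact nonneg_of_ode (fun x => hasDerivAt_evX ρ g.1.1 g.1.2 x y L) ih
        (chainY_sound hρ _ _ h.1 y hy)

end Pool.Agent.MP_737f38_pr

end

section

namespace Pool.Agent.MP_737f38_pr

def dataI : List Term :=
  [⟨[0, 0, 1], 0, 0, 2, 2⟩,
   ⟨[0, 0, -1], 0, 0, 2, 3⟩,
   ⟨[1, 0, 0], 0, 1, 0, 2⟩,
   ⟨[-2, -2, 0], 0, 1, 1, 2⟩,
   ⟨[0, 2, 0], 0, 1, 1, 3⟩,
   ⟨[1, 0, -1], 0, 1, 2, 3⟩,
   ⟨[0, 0, 1], 0, 1, 2, 4⟩,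
   ⟨[-1, -1, 0], 1, 1, 0, 2⟩,
   ⟨[2, 4, 0], 1, 1, 1, 2⟩,
   ⟨[1, 1, -1], 1, 1, 2, 2⟩,
   ⟨[-2, -6, 1], 1, 1, 2, 3⟩,
   ⟨[0, 2, 0], 1, 1, 3, 3⟩,
   ⟨[-1, -2, -1], 2, 1, 2, 2⟩,
   ⟨[1, 2, 1], 2, 1, 2, 3⟩,
   ⟨[0, 1, 0], 1, 2, 0, 2⟩,
   ⟨[-2, -4, 0], 1, 2, 1, 3⟩,
   ⟨[3, 4, 1], 1, 2, 2, 3⟩,
   ⟨[1, 1, -1], 1, 2, 2, 4⟩,
   ⟨[-2, -2, 0], 1, 2, 3, 4⟩,
   ⟨[0, -2, 0], 2, 2, 1, 2⟩,
   ⟨[2, 2, 0], 2, 2, 1, 3⟩,
   ⟨[-2, 2, 1], 2, 2, 2, 3⟩,
   ⟨[-2, -4, 0], 2, 2, 3, 3⟩,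
   ⟨[-1, -2, -1], 2, 2, 2, 4⟩,
   ⟨[2, 4, 0], 2, 2, 3, 4⟩,
   ⟨[1, 0, 0], 2, 2, 4, 4⟩,
   ⟨[0, 1, 1], 3, 2, 2, 2⟩,
   ⟨[-1, -2, -1], 3, 2, 2, 3⟩,
   ⟨[2, 2, 0], 3, 2, 3, 3⟩,
   ⟨[-1, -1, 0], 3, 2, 4, 4⟩,
   ⟨[0, 0, -1], 3, 3, 2, 3⟩,
   ⟨[0, 1, 1], 3, 3, 2, 4⟩,
   ⟨[0, -2, 0], 3, 3, 3, 4⟩,
   ⟨[0, 1, 0], 3, 3, 4, 4⟩]

def orderI : List ((ℕ × ℕ) × List (ℕ × ℕ)) :=
  [((0, 0), [(0, 2), (1, 2), (2, 2), (1, 3), (2, 3), (3, 3), (2, 4), (3, 4), (4, 4)]),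
   ((0, 1), [(0, 2), (1, 2), (2, 2), (1, 3), (2, 3), (3, 3), (2, 4), (3, 4), (4, 4)]),
   ((1, 1), [(0, 2), (1, 2), (2, 2), (1, 3), (2, 3), (3, 3), (2, 4), (3, 4), (4, 4)]),
   ((2, 1), [(0, 2), (1, 2), (2, 2), (1, 3), (2, 3), (3, 3), (2, 4), (3, 4), (4, 4)]),
   ((1, 2), [(0, 2), (1, 2), (2, 2), (1, 3), (2, 3), (3, 3), (2, 4), (3, 4), (4, 4)]),
   ((2, 2), [(1, 2), (2, 2), (1, 3), (2, 3), (3, 3), (2, 4), (3, 4), (4, 4)]),
   ((3, 2), [(2, 2), (2, 3), (3, 3), (2, 4), (3, 4), (4, 4)]),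
   ((3, 3), [(2, 3), (2, 4), (3, 4), (4, 4)])]

lemma checkI : chainX orderI dataI = true := by decide +kernel

lemma evI_nonneg {ρ x y : ℝ} (hρ : 0 ≤ ρ) (hx : 0 ≤ x) (hy : 0 ≤ y) :
    0 ≤ ev ρ dataI x y :=
  chainX_sound hρ y hy _ _ checkI x hx

def dataII : List Term :=
  [⟨[0, 0, -1], 0, 0, 0, 1⟩,
   ⟨[0, 0, 1], 0, 0, 0, 0⟩,
   ⟨[-1, 0, 0], 0, 1, 2, 2⟩,
   ⟨[2, 2, 0], 0, 1, 1, 2⟩,
   ⟨[0, -2, 0], 0, 1, 1, 1⟩,
   ⟨[-1, 0, 1], 0, 1, 0, 1⟩,
   ⟨[0, 0, -1], 0, 1, 0, 0⟩,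
   ⟨[1, 1, 0], 1, 1, 3, 2⟩,
   ⟨[-2, -4, 0], 1, 1, 2, 2⟩,
   ⟨[-1, -1, 1], 1, 1, 1, 2⟩,
   ⟨[2, 6, -1], 1, 1, 1, 1⟩,
   ⟨[0, -2, 0], 1, 1, 0, 1⟩,
   ⟨[1, 2, 1], 2, 1, 2, 2⟩,
   ⟨[-1, -2, -1], 2, 1, 2, 1⟩,
   ⟨[0, -1, 0], 1, 2, 3, 3⟩,
   ⟨[2, 4, 0], 1, 2, 2, 2⟩,
   ⟨[-3, -4, -1], 1, 2, 1, 2⟩,
   ⟨[-1, -1, 1], 1, 2, 1, 1⟩,
   ⟨[2, 2, 0], 1, 2, 0, 1⟩,
   ⟨[0, 2, 0], 2, 2, 3, 3⟩,
   ⟨[-2, -2, 0], 2, 2, 3, 2⟩,
   ⟨[2, -2, -1], 2, 2, 2, 2⟩,
   ⟨[2, 4, 0], 2, 2, 1, 2⟩,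
   ⟨[1, 2, 1], 2, 2, 2, 1⟩,
   ⟨[-2, -4, 0], 2, 2, 1, 1⟩,
   ⟨[-1, 0, 0], 2, 2, 0, 1⟩,
   ⟨[0, -1, -1], 3, 2, 3, 3⟩,
   ⟨[1, 2, 1], 3, 2, 3, 2⟩,
   ⟨[-2, -2, 0], 3, 2, 2, 2⟩,
   ⟨[1, 1, 0], 3, 2, 1, 1⟩,
   ⟨[0, 0, 1], 3, 3, 3, 3⟩,
   ⟨[0, -1, -1], 3, 3, 3, 2⟩,
   ⟨[0, 2, 0], 3, 3, 2, 2⟩,
   ⟨[0, -1, 0], 3, 3, 1, 2⟩]

def orderII : List ((ℕ × ℕ) × List (ℕ × ℕ)) :=
  [((0, 0), [(0, 0), (0, 1), (1, 1), (2, 1), (1, 2), (2, 2), (3, 2), (3, 3)]),
   ((0, 1), [(0, 0), (0, 1), (1, 1), (2, 1), (1, 2), (2, 2), (3, 2), (3, 3)]),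
   ((1, 1), [(0, 1), (1, 1), (2, 1), (1, 2), (2, 2), (3, 2), (3, 3)]),
   ((2, 1), [(0, 1), (1, 1), (2, 1), (1, 2), (2, 2), (3, 2), (3, 3)]),
   ((1, 2), [(0, 1), (1, 1), (2, 1), (1, 2), (2, 2), (3, 2), (3, 3)]),
   ((2, 2), [(0, 1), (1, 1), (2, 1), (1, 2), (2, 2), (3, 2), (3, 3)]),
   ((3, 2), [(1, 1), (1, 2), (2, 2), (3, 2), (3, 3)]),
   ((3, 3), [(1, 2), (2, 2), (3, 2), (3, 3)])]

lemma checkII : chainX orderII dataII = true := by decide +kernel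

lemma evII_nonneg {ρ x y : ℝ} (hρ : 0 ≤ ρ) (hx : 0 ≤ x) (hy : 0 ≤ y) :
    0 ≤ ev ρ dataII x y :=
  chainX_sound hρ y hy _ _ checkII x hx

def dataB : List Term :=
  [⟨[0, 0, -1], 0, 0, 0, 0⟩,
   ⟨[1, 2, 1], 0, 1, 0, 0⟩,
   ⟨[-2, -4, 1], 1, 1, 0, 0⟩,
   ⟨[1, 2, 1], 2, 1, 0, 0⟩,
   ⟨[-1, -2, -1], 1, 2, 0, 0⟩,
   ⟨[2, 4, -1], 2, 2, 0, 0⟩,
   ⟨[-1, -2, -1], 3, 2, 0, 0⟩,
   ⟨[0, 0, 1], 3, 3, 0, 0⟩]

def orderB : List ((ℕ × ℕ) × List (ℕ × ℕ)) :=
  [((0, 0), [(0, 0)]),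
   ((0, 1), [(0, 0)]),
   ((1, 1), [(0, 0)]),
   ((2, 1), [(0, 0)]),
   ((1, 2), [(0, 0)]),
   ((2, 2), [(0, 0)]),
   ((3, 2), [(0, 0)]),
   ((3, 3), [(0, 0)])]

lemma checkB : chainX orderB dataB = true := by decide +kernel

lemma evB_nonneg {ρ x y : ℝ} (hρ : 0 ≤ ρ) (hx : 0 ≤ x) (hy : 0 ≤ y) :
    0 ≤ ev ρ dataB x y :=
  chainX_sound hρ y hy _ _ checkB x hx

end Pool.Agent.MP_737f38_pr

end

section

namespace Pool.Agent.MP_737f38_pr

/-- The polynomial expression whose sign decides the local inequality. -/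
noncomputable def EE (r s t σ τ cs ct : ℝ) : ℝ :=
  (s - t) * (s * (r + σ - 1 - cs) * (r + τ - 1 + ct) - r ^ 2 * t)
    - s * t * (σ + τ - 2) * (cs - ct)

lemma EE_I (ρ R1 Q1 R2 Q2 : ℝ) (hρ : 0 < ρ) (hR1 : 0 < R1) (hR2 : 0 < R2)
    (hQ1 : 1 < Q1) (hQ2 : 1 < Q2) (x y : ℝ) (e1 : Real.exp (ρ * x) = R1) (e2 : Real.exp x = Q1)
    (e3 : Real.exp (ρ * y) = R2) (e4 : Real.exp y = Q2) (hx : 0 ≤ x) (hy : 0 ≤ y) :
    0 ≤ EE (ρ / (1 + ρ)) (R1 * R2 * (Q1 * Q2)) (R2 * Q2) (R1 * R2) (1 / R2)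
      (1 / (1 + ρ) * (R1 * R2 * (Q1 * Q2) - 1) * (1 - 1 / (R1 * R2)) / (Q1 * Q2 - 1))
      (1 / (1 + ρ) * (R2 * Q2 - 1) * (1 - 1 / R2) / (Q2 - 1)) := by
  have h := evI_nonneg hρ.le hx hy
  have hS : 0 < Q1 * Q2 - 1 := by nlinarith
  have hT : 0 < Q2 - 1 := by linarith
  have h1 : 0 < 1 + ρ := by linarith
  simp only [ev, dataI, List.map_cons, List.map_nil, List.sum_cons, List.sum_nil, Term.ev, pev,
    e1, e2, e3, e4] at h
  push_cast at h
  have key := div_nonneg h (mul_pos (mul_pos (pow_pos h1 2) hS) hT).le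
  refine key.trans_eq ?_
  unfold EE
  have hS' := hS.ne'
  have hT' := hT.ne'
  generalize hSS : Q1 * Q2 - 1 = SS at *
  generalize hTT : Q2 - 1 = TT at *
  field_simp
  subst hSS hTT
  ring

lemma EE_II (ρ R1 Q1 R2 Q2 : ℝ) (hρ : 0 < ρ) (hR1 : 0 < R1) (hR2 : 0 < R2)
    (hQ1 : 1 < Q1) (hQ2 : 1 < Q2) (x y : ℝ) (e1 : Real.exp (ρ * x) = R1) (e2 : Real.exp x = Q1)
    (e3 : Real.exp (ρ * y) = R2) (e4 : Real.exp y = Q2) (hx : 0 ≤ x) (hy : 0 ≤ y) :
    0 ≤ EE (ρ / (1 + ρ)) (R1 * Q1) (1 / (R2 * Q2)) R1 R2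
      (1 / (1 + ρ) * (R1 * Q1 - 1) * (1 - 1 / R1) / (Q1 - 1))
      (1 / (1 + ρ) * (1 / (R2 * Q2) - 1) * (1 - R2) / (1 / Q2 - 1)) := by
  have h := evII_nonneg hρ.le hx hy
  have hS : 0 < Q1 - 1 := by linarith
  have hT : 0 < Q2 - 1 := by linarith
  have hQ2' : 0 < Q2 := by linarith
  have h1 : 0 < 1 + ρ := by linarith
  simp only [ev, dataII, List.map_cons, List.map_nil, List.sum_cons, List.sum_nil, Term.ev, pev,
    e1, e2, e3, e4] at h
  push_cast at h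
  have key := div_nonneg h (mul_pos (mul_pos (mul_pos (pow_pos h1 2) hS) hT)
    (mul_pos (pow_pos hR2 2) (pow_pos hQ2' 2))).le
  refine key.trans_eq ?_
  unfold EE
  have hS' := hS.ne'
  have hT' := hT.ne'
  have e5 : 1 / Q2 - 1 = -((Q2 - 1) / Q2) := by field_simp; ring
  rw [e5]
  generalize hSS : Q1 - 1 = SS at *
  generalize hTT : Q2 - 1 = TT at *
  field_simp
  subst hSS hTT
  ring

lemma EE_B (ρ R1 Q1 : ℝ) (hρ : 0 < ρ) (hR1 : 0 < R1)
    (hQ1 : 1 < Q1) (x : ℝ) (e1 : Real.exp (ρ * x) = R1) (e2 : Real.exp x = Q1) (hx : 0 ≤ x) :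
    0 ≤ EE (ρ / (1 + ρ)) (R1 * Q1) 1 R1 1
      (1 / (1 + ρ) * (R1 * Q1 - 1) * (1 - 1 / R1) / (Q1 - 1)) 0 := by
  have h := evB_nonneg hρ.le hx le_rfl
  have hS : 0 < Q1 - 1 := by linarith
  have h1 : 0 < 1 + ρ := by linarith
  simp only [ev, dataB, List.map_cons, List.map_nil, List.sum_cons, List.sum_nil, Term.ev, pev,
    e1, e2] at h
  push_cast at h
  have key := div_nonneg h (mul_pos (pow_pos h1 2) hS).le
  refine key.trans_eq ?_
  unfold EE
  have hS' := hS.ne'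
  generalize hSS : Q1 - 1 = SS at *
  field_simp
  subst hSS
  ring

noncomputable def chi (r t : ℝ) : ℝ := (1 - r) * (t - 1) * (1 - t ^ (-r)) / (t ^ (1 - r) - 1)

lemma chi_inv {r t : ℝ} (ht : 0 < t) : chi r (1 / t) = -chi r t := by
  unfold chi
  have e1 : (1 / t) ^ (-r) = 1 / t ^ (-r) := by
    rw [Real.div_rpow zero_le_one ht.le, Real.one_rpow]
  have e2 : (1 / t) ^ (1 - r) = 1 / t ^ (1 - r) := by
    rw [Real.div_rpow zero_le_one ht.le, Real.one_rpow]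
  have e3 : t ^ (1 - r) = t * t ^ (-r) := by
    rw [sub_eq_add_neg, Real.rpow_add ht, Real.rpow_one]
  have h1 : 0 < t ^ (-r) := Real.rpow_pos_of_pos ht _
  rw [e1, e2, e3]
  generalize t ^ (-r) = u at *
  by_cases h : t * u - 1 = 0
  · have h' : 1 / (t * u) - 1 = 0 := by
      have : t * u = 1 := by linarith
      rw [this]; simp
    rw [h, h']; simp
  · have e5 : 1 / (t * u) - 1 = -((t * u - 1) / (t * u)) := by field_simp; ring
    rw [e5]
    generalize hTT : t * u - 1 = TT at *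
    field_simp
    ring

lemma EE_symm (r s t σ τ cs ct : ℝ) (hs : s ≠ 0) (ht : t ≠ 0) :
    EE r s t σ τ cs ct = s ^ 2 * t ^ 2 * EE r (1 / t) (1 / s) τ σ (-ct) (-cs) := by
  unfold EE; field_simp; ring

lemma EE_nonneg_of_one_lt {r s t : ℝ} (hr : 0 < r) (hr1 : r < 1) (ht : 0 < t) (hts : t < s)
    (hs1 : 1 < s) : 0 ≤ EE r s t (s ^ r) (t ^ (-r)) (chi r s) (chi r t) := by
  have hs : 0 < s := by linarith
  have hq : 0 < 1 - r := by linarith
  have hq' : 1 - r ≠ 0 := hq.ne'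
  set ρ := r / (1 - r) with hρdef
  have hρ : 0 < ρ := div_pos hr hq
  have er : r = ρ / (1 + ρ) := by rw [hρdef]; field_simp; ring
  have eq : 1 - r = 1 / (1 + ρ) := by rw [hρdef]; field_simp; ring
  have hls : 0 < Real.log s := Real.log_pos hs1
  have hlts : Real.log t < Real.log s := Real.log_lt_log ht hts
  have es : s = Real.exp (Real.log s) := (Real.exp_log hs).symm
  have et : t = Real.exp (Real.log t) := (Real.exp_log ht).symm
  rcases lt_trichotomy 1 t with h1 | h1 | h1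
  · have hlt : 0 < Real.log t := Real.log_pos h1
    have hx : 0 < (1 - r) * (Real.log s - Real.log t) := mul_pos hq (by linarith)
    have hy : 0 < (1 - r) * Real.log t := mul_pos hq hlt
    have key := EE_I ρ _ _ _ _ hρ (Real.exp_pos _) (Real.exp_pos _) (Real.one_lt_exp_iff.2 hx)
      (Real.one_lt_exp_iff.2 hy) _ _ rfl rfl rfl rfl hx.le hy.le
    have a1 : Real.exp (ρ * ((1 - r) * (Real.log s - Real.log t))) *
        Real.exp (ρ * ((1 - r) * Real.log t)) = s ^ r := by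
      rw [Real.rpow_def_of_pos hs, ← Real.exp_add]; congr 1; rw [hρdef]; field_simp; ring
    have a2 : Real.exp ((1 - r) * (Real.log s - Real.log t)) *
        Real.exp ((1 - r) * Real.log t) = s ^ (1 - r) := by
      rw [Real.rpow_def_of_pos hs, ← Real.exp_add]; congr 1; ring
    have a3 : Real.exp (ρ * ((1 - r) * Real.log t)) = t ^ r := by
      rw [Real.rpow_def_of_pos ht]; congr 1; rw [hρdef]; field_simp
    have a4 : Real.exp ((1 - r) * Real.log t) = t ^ (1 - r) := by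
      rw [Real.rpow_def_of_pos ht]; congr 1; ring
    have a5 : s ^ r * s ^ (1 - r) = s := by rw [← Real.rpow_add hs]; simp
    have a6 : t ^ r * t ^ (1 - r) = t := by rw [← Real.rpow_add ht]; simp
    have a7 : 1 / t ^ r = t ^ (-r) := by rw [Real.rpow_neg ht.le, one_div]
    have a8 : 1 / s ^ r = s ^ (-r) := by rw [Real.rpow_neg hs.le, one_div]
    rw [a1, a2, a3, a4, a5, a6, a7, a8, ← er, ← eq] at key
    exact key
  · subst h1
    have hx : 0 < (1 - r) * Real.log s := mul_pos hq hls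
    have key := EE_B ρ _ _ hρ (Real.exp_pos _) (Real.one_lt_exp_iff.2 hx) _ rfl rfl hx.le
    have a3 : Real.exp (ρ * ((1 - r) * Real.log s)) = s ^ r := by
      rw [Real.rpow_def_of_pos hs]; congr 1; rw [hρdef]; field_simp
    have a4 : Real.exp ((1 - r) * Real.log s) = s ^ (1 - r) := by
      rw [Real.rpow_def_of_pos hs]; congr 1; ring
    have a5 : s ^ r * s ^ (1 - r) = s := by rw [← Real.rpow_add hs]; simp
    have a8 : 1 / s ^ r = s ^ (-r) := by rw [Real.rpow_neg hs.le, one_div]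
    rw [a3, a4, a5, a8, ← er, ← eq] at key
    have c1 : chi r 1 = 0 := by simp [chi]
    rw [c1, Real.one_rpow]
    exact key
  · have hlt : Real.log t < 0 := Real.log_neg ht h1
    have hx : 0 < (1 - r) * Real.log s := mul_pos hq hls
    have hy : 0 < (1 - r) * (-Real.log t) := mul_pos hq (by linarith)
    have key := EE_II ρ _ _ _ _ hρ (Real.exp_pos _) (Real.exp_pos _) (Real.one_lt_exp_iff.2 hx)
      (Real.one_lt_exp_iff.2 hy) _ _ rfl rfl rfl rfl hx.le hy.le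
    have a1 : Real.exp (ρ * ((1 - r) * Real.log s)) = s ^ r := by
      rw [Real.rpow_def_of_pos hs]; congr 1; rw [hρdef]; field_simp
    have a2 : Real.exp ((1 - r) * Real.log s) = s ^ (1 - r) := by
      rw [Real.rpow_def_of_pos hs]; congr 1; ring
    have a3 : Real.exp (ρ * ((1 - r) * (-Real.log t))) = t ^ (-r) := by
      rw [Real.rpow_def_of_pos ht]; congr 1; rw [hρdef]; field_simp
    have a4 : Real.exp ((1 - r) * (-Real.log t)) = 1 / t ^ (1 - r) := by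
      rw [Real.rpow_def_of_pos ht, one_div, ← Real.exp_neg]; congr 1; ring
    have a5 : s ^ r * s ^ (1 - r) = s := by rw [← Real.rpow_add hs]; simp
    have a6 : 1 / (t ^ (-r) * (1 / t ^ (1 - r))) = t := by
      have : t ^ (1 - r) = t * t ^ (-r) := by
        rw [sub_eq_add_neg, Real.rpow_add ht, Real.rpow_one]
      have h2 : 0 < t ^ (-r) := Real.rpow_pos_of_pos ht _
      rw [this]; field_simp
    have a7 : 1 / (1 / t ^ (1 - r)) = t ^ (1 - r) := by simp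
    have a8 : 1 / s ^ r = s ^ (-r) := by rw [Real.rpow_neg hs.le, one_div]
    rw [a1, a2, a3, a4, a5, a6, a7, a8, ← er, ← eq] at key
    exact key

lemma EE_nonneg {r s t : ℝ} (hr : 0 < r) (hr1 : r < 1) (ht : 0 < t) (hts : t < s) :
    0 ≤ EE r s t (s ^ r) (t ^ (-r)) (chi r s) (chi r t) := by
  have hs : 0 < s := by linarith
  rcases lt_or_ge 1 s with h | h
  · exact EE_nonneg_of_one_lt hr hr1 ht hts h
  · have h1 : 1 < 1 / t := by rw [lt_div_iff₀ ht]; linarith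
    have h2 : 1 / s < 1 / t := one_div_lt_one_div_of_lt ht hts
    have key := EE_nonneg_of_one_lt hr hr1 (one_div_pos.2 hs) h2 h1
    have a1 : (1 / t) ^ r = t ^ (-r) := by
      rw [Real.div_rpow zero_le_one ht.le, Real.one_rpow, Real.rpow_neg ht.le, one_div]
    have a2 : (1 / s) ^ (-r) = s ^ r := by
      rw [Real.div_rpow zero_le_one hs.le, Real.one_rpow, Real.rpow_neg hs.le]; simp
    rw [a1, a2, chi_inv ht, chi_inv hs] at key
    rw [EE_symm _ _ _ _ _ _ _ hs.ne' ht.ne']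
    positivity

/-- The share of the coefficient of `g ^ 2` that is given to the triple centred at `y`. -/
noncomputable def phi (r x y : ℝ) : ℝ :=
  r * x ^ (-r) / x + (1 - r) * (x ^ (-r) - y ^ (-r)) ^ 2 / (x ^ (1 - r) - y ^ (1 - r))

lemma phi_add (r x y : ℝ) : phi r x y + phi r y x = r * x ^ (-r) / x + r * y ^ (-r) / y := by
  unfold phi
  have : y ^ (1 - r) - x ^ (1 - r) = -(x ^ (1 - r) - y ^ (1 - r)) := by ring
  rw [this, div_neg]; ring

lemma phi_eq {r x y : ℝ} (hr1 : r < 1) (hx : 0 < x) (hy : 0 < y) :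
    phi r x y = y ^ (-r) / x * (r + (x / y) ^ (-r) - 1 + chi r (x / y)) := by
  unfold phi chi
  rw [Real.div_rpow hx.le hy.le, Real.div_rpow hx.le hy.le]
  have e1 : x ^ (1 - r) = x * x ^ (-r) := by
    rw [sub_eq_add_neg, Real.rpow_add hx, Real.rpow_one]
  have e2 : y ^ (1 - r) = y * y ^ (-r) := by
    rw [sub_eq_add_neg, Real.rpow_add hy, Real.rpow_one]
  have h1 : 0 < x ^ (-r) := Real.rpow_pos_of_pos hx _
  have h2 : 0 < y ^ (-r) := Real.rpow_pos_of_pos hy _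
  by_cases hxy : x = y
  · subst hxy
    simp only [sub_self, div_self hx.ne', div_self h1.ne']
    simp; ring
  · have hne : x ^ (1 - r) - y ^ (1 - r) ≠ 0 := by
      intro h
      apply hxy
      have hq : (1 - r) ≠ 0 := by linarith
      exact (Real.rpow_left_inj hx.le hy.le hq).1 (by linarith)
    rw [e1, e2] at *
    generalize x ^ (-r) = u at *
    generalize y ^ (-r) = v at *
    have e5 : x * u / (y * v) - 1 = (x * u - y * v) / (y * v) := by field_simp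
    rw [e5]
    generalize hTT : x * u - y * v = TT at *
    field_simp
    subst hTT
    ring

lemma N_ge {r a : ℝ} (hr : 0 < r) (hr1 : r < 1) (ha : 0 < a) :
    r ≤ r + a ^ (-r) - 1 + chi r a := by
  have hq : 0 < 1 - r := by linarith
  have hB : a ^ (1 - r) ≤ 1 + (1 - r) * (a - 1) := by
    have := rpow_one_add_le_one_add_mul_self (s := a - 1) (p := 1 - r) (by linarith) hq.le
      (by linarith)
    simpa using this
  unfold chi
  rcases lt_trichotomy a 1 with h | h | h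
  · have h1 : a ^ (1 - r) < 1 := Real.rpow_lt_one ha.le h hq
    have h2 : 1 < a ^ (-r) := Real.one_lt_rpow_of_pos_of_lt_one_of_neg ha h (by linarith)
    have h3 : -(a ^ (-r) - 1) ≤ (1 - r) * (a - 1) * (1 - a ^ (-r)) / (a ^ (1 - r) - 1) := by
      rw [le_div_iff_of_neg (by linarith)]
      nlinarith
    linarith
  · subst h; simp
  · have h1 : 1 < a ^ (1 - r) := Real.one_lt_rpow h hq
    have h2 : a ^ (-r) < 1 := Real.rpow_lt_one_of_one_lt_of_neg h (by linarith)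
    have h3 : -(a ^ (-r) - 1) ≤ (1 - r) * (a - 1) * (1 - a ^ (-r)) / (a ^ (1 - r) - 1) := by
      rw [le_div_iff₀ (by linarith)]
      nlinarith
    linarith

lemma phi_pos {r x y : ℝ} (hr : 0 < r) (hr1 : r < 1) (hx : 0 < x) (hy : 0 < y) :
    0 < phi r x y := by
  rw [phi_eq hr1 hx hy]
  have h1 := N_ge hr hr1 (div_pos hx hy)
  have h2 : 0 < y ^ (-r) := Real.rpow_pos_of_pos hy _
  exact mul_pos (div_pos h2 hx) (by linarith)

/-- The local inequality. -/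
lemma local_ineq {r f0 f1 f2 g0 g1 h : ℝ} (hr : 0 < r) (hr1 : r < 1) (h0 : 0 < f0) (h1 : 0 < f1)
    (h2 : 0 < f2) (hD : f0 * f2 < f1 ^ 2)
    (hkey : h * (f1 ^ 2 - f0 * f2) ≤ 2 * g0 * g1 * f1 - g0 ^ 2 * f2 - g1 ^ 2 * f0) :
    h * (f0 ^ (-r) - 2 * f1 ^ (-r) + f2 ^ (-r)) ≤
      phi r f0 f1 * g0 ^ 2 - 2 * (r * f1 ^ (-r) / f1) * g0 * g1 + phi r f2 f1 * g1 ^ 2 := by
  have hts : f2 / f1 < f1 / f0 := by
    rw [div_lt_div_iff₀ h1 h0]; nlinarith
  have hE := EE_nonneg hr hr1 (div_pos h2 h1) hts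
  have hp0 := phi_pos hr hr1 h0 h1
  have hp2 := phi_pos hr hr1 h2 h1
  have e0 := phi_eq hr1 h0 h1
  have e2 := phi_eq hr1 h2 h1
  have c0 : chi r (f0 / f1) = -chi r (f1 / f0) := by
    rw [← chi_inv (div_pos h1 h0)]; simp
  have hu0 : 0 < f0 ^ (-r) := Real.rpow_pos_of_pos h0 _
  have hu1 : 0 < f1 ^ (-r) := Real.rpow_pos_of_pos h1 _
  have hu2 : 0 < f2 ^ (-r) := Real.rpow_pos_of_pos h2 _
  have d0 : (f0 / f1) ^ (-r) = f0 ^ (-r) / f1 ^ (-r) := Real.div_rpow h0.le h1.le _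
  have d1 : (f1 / f0) ^ r = f0 ^ (-r) / f1 ^ (-r) := by
    rw [Real.div_rpow h1.le h0.le, Real.rpow_neg h0.le, Real.rpow_neg h1.le]
    field_simp
  have d2 : (f2 / f1) ^ (-r) = f2 ^ (-r) / f1 ^ (-r) := Real.div_rpow h2.le h1.le _
  have hW : 0 ≤ f0 ^ (-r) - 2 * f1 ^ (-r) + f2 ^ (-r) := by
    have a1 : (f1 ^ 2) ^ (-r) ≤ (f0 * f2) ^ (-r) :=
      Real.rpow_le_rpow_of_nonpos (mul_pos h0 h2) hD.le (by linarith)
    rw [Real.mul_rpow h0.le h2.le, sq, Real.mul_rpow h1.le h1.le] at a1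
    by_contra hneg
    push Not at hneg
    nlinarith [sq_nonneg (f0 ^ (-r) - f2 ^ (-r))]
  rw [c0, d0] at e0
  rw [d2] at e2
  rw [d1, d2] at hE
  generalize chi r (f1 / f0) = cs at *
  generalize chi r (f2 / f1) = ct at *
  generalize f0 ^ (-r) = u0 at *
  generalize f1 ^ (-r) = u1 at *
  generalize f2 ^ (-r) = u2 at *
  generalize phi r f0 f1 = p0 at *
  generalize phi r f2 f1 = p2 at *
  set W := u0 - 2 * u1 + u2 with hWdef
  set D := f1 ^ 2 - f0 * f2 with hDdef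
  have hD' : 0 < D := by rw [hDdef]; linarith
  set A := p0 * D + W * f2 with hA
  set B := p2 * D + W * f0 with hB
  set C := r * u1 / f1 * D + W * f1 with hC
  have hApos : 0 < A := by rw [hA]; positivity
  have hdet : A * B - C ^ 2 = D * u1 ^ 2 * f0 / f2 *
      EE r (f1 / f0) (f2 / f1) (u0 / u1) (u2 / u1) cs ct := by
    rw [hA, hB, hC, e0, e2, hWdef, hDdef]; unfold EE; field_simp; ring
  have hdet' : 0 ≤ A * B - C ^ 2 := by rw [hdet]; positivity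
  have hQ : 0 ≤ A * g0 ^ 2 - 2 * C * g0 * g1 + B * g1 ^ 2 := by
    have : A * (A * g0 ^ 2 - 2 * C * g0 * g1 + B * g1 ^ 2)
        = (A * g0 - C * g1) ^ 2 + (A * B - C ^ 2) * g1 ^ 2 := by ring
    have h3 : 0 ≤ A * (A * g0 ^ 2 - 2 * C * g0 * g1 + B * g1 ^ 2) := by
      rw [this]; positivity
    exact nonneg_of_mul_nonneg_right h3 hApos |> fun h => h
  have h4 : h * D * W ≤ (2 * g0 * g1 * f1 - g0 ^ 2 * f2 - g1 ^ 2 * f0) * W :=
    mul_le_mul_of_nonneg_right hkey hW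
  have h5 : D * (h * W) ≤ D * (p0 * g0 ^ 2 - 2 * (r * u1 / f1) * g0 * g1 + p2 * g1 ^ 2) := by
    rw [hA, hB, hC] at hQ
    nlinarith
  exact le_of_mul_le_mul_left h5 hD'

end Pool.Agent.MP_737f38_pr

end

section

namespace Pool.Agent.MP_737f38_pr

open Finset Filter Topology

lemma sum_nonpos_of_key {r : ℝ} (hr : 0 < r) (hr1 : r < 1) (n : ℕ) (hn : 1 ≤ n)
    (f g h : ℤ → ℝ) (hf : ∀ k : ℤ, 0 ≤ k → k ≤ n → 0 < f k)
    (hg0 : g (-1) = 0) (hgn : g n = 0) (hh1 : h (-1) = 0) (hh2 : h (-2) = 0)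
    (hhn : h n = 0) (hhn1 : h (n - 1) = 0)
    (hD : ∀ k : ℕ, k + 2 ≤ n → f k * f (k + 2) < f (k + 1) ^ 2)
    (hkey : ∀ k : ℕ, k + 2 ≤ n → h k * (f (k + 1) ^ 2 - f k * f (k + 2)) ≤
      2 * g k * g (k + 1) * f (k + 1) - g k ^ 2 * f (k + 2) - g (k + 1) ^ 2 * f k) :
    ∑ k ∈ range (n + 1), (f k ^ (-r) * (h (k - 2) - 2 * h (k - 1) + h k)
      - r * f k ^ (-r) / f k * (g (k - 1) - g k) ^ 2) ≤ 0 := by
  set B : ℤ → ℝ := fun k => f (k - 1) ^ (-r) * h (k - 1) - f k ^ (-r) * h (k - 2)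
    + (phi r (f k) (f (k - 1)) - r * f (k - 1) ^ (-r) / f (k - 1)) * g (k - 1) ^ 2 with hB
  set Loc : ℤ → ℝ := fun k => h (k - 1) * (f (k - 1) ^ (-r) - 2 * f k ^ (-r) + f (k + 1) ^ (-r))
    - (phi r (f (k - 1)) (f k) * g (k - 1) ^ 2 - 2 * (r * f k ^ (-r) / f k) * g (k - 1) * g k
      + phi r (f (k + 1)) (f k) * g k ^ 2) with hLoc
  have hT : ∀ k : ℤ, f k ^ (-r) * (h (k - 2) - 2 * h (k - 1) + h k)
      - r * f k ^ (-r) / f k * (g (k - 1) - g k) ^ 2 = Loc k + (B (k + 1) - B k) := by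
    intro k
    have e := phi_add r (f k) (f (k - 1))
    have z1 : k + 1 - 1 = k := by ring
    have z2 : k + 1 - 2 = k - 1 := by ring
    simp only [hB, hLoc, z1, z2]
    linear_combination (g (k - 1) ^ 2) * e
  have hsum : ∑ k ∈ range (n + 1), (B ((k : ℤ) + 1) - B k) = B ((n + 1 : ℕ) : ℤ) - B (0 : ℕ) := by
    have := sum_range_sub (fun k : ℕ => B (k : ℤ)) (n + 1)
    simpa using this
  have hB0 : B (0 : ℕ) = 0 := by simp [hB, hg0, hh1, hh2]
  have hBn : B ((n + 1 : ℕ) : ℤ) = 0 := by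
    have z1 : ((n + 1 : ℕ) : ℤ) - 1 = n := by push_cast; ring
    have z2 : ((n + 1 : ℕ) : ℤ) - 2 = n - 1 := by push_cast; ring
    simp only [hB, z1, z2, hgn, hhn, hhn1]; ring
  rw [sum_congr rfl (fun (k : ℕ) _ => hT k), sum_add_distrib, hsum, hB0, hBn]
  simp only [sub_self, add_zero]
  apply sum_nonpos
  intro k hk
  have hkn : k ≤ n := by have := mem_range.1 hk; omega
  rcases Nat.eq_zero_or_pos k with h0 | h0
  · subst h0
    have hp := phi_pos hr hr1 (hf 1 (by omega) (by omega)) (hf 0 (by omega) (by omega))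
    have := mul_nonneg hp.le (sq_nonneg (g 0))
    simp [hLoc, hg0, hh1]
    exact this
  rcases eq_or_lt_of_le hkn with h1 | h1
  · subst h1
    have hp := phi_pos hr hr1 (hf (k - 1) (by omega) (by omega)) (hf k (by omega) (by omega))
    have := mul_nonneg hp.le (sq_nonneg (g (k - 1)))
    simp only [hLoc, hgn, hhn1]
    linarith
  · obtain ⟨j, rfl⟩ : ∃ j, k = j + 1 := ⟨k - 1, by omega⟩
    have key := local_ineq hr hr1 (hf j (by omega) (by omega)) (hf (j + 1) (by omega) (by omega))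
      (hf (j + 2) (by omega) (by omega)) (hD j (by omega)) (hkey j (by omega))
    have z1 : ((j + 1 : ℕ) : ℤ) - 1 = j := by push_cast; ring
    have z2 : ((j + 1 : ℕ) : ℤ) + 1 = j + 2 := by push_cast; ring
    have z3 : ((j + 1 : ℕ) : ℤ) = j + 1 := by push_cast; ring
    simp only [hLoc]
    rw [z1, z2, z3]
    linarith

lemma mass_eq_cf {m : ℕ} (p ξ : Fin m → ℝ) (k : ℕ) :
    bernoulliSumMass p k = cf p (fun i => 1 - p i) ξ univ 0 k := by
  rw [cf_zero_eq_sum, bernoulliSumMass]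
  simp only [compl_eq_univ_sdiff]

lemma mass_sum {m : ℕ} (p : Fin m → ℝ) : ∑ k ∈ range (m + 1), bernoulliSumMass p k = 1 := by
  have h := Finset.prod_add p (fun i => 1 - p i) univ
  rw [Finset.sum_powerset] at h
  simp only [add_sub_cancel, prod_const_one, card_univ, Fintype.card_fin] at h
  rw [h]
  simp only [bernoulliSumMass, compl_eq_univ_sdiff]

lemma mass_nonneg {m : ℕ} {p : Fin m → ℝ} (hp : ∀ i, p i ∈ Set.Icc (0 : ℝ) 1) (k : ℕ) :
    0 ≤ bernoulliSumMass p k := by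
  apply sum_nonneg
  intro A _
  exact mul_nonneg (prod_nonneg fun i _ => (hp i).1)
    (prod_nonneg fun i _ => sub_nonneg.2 (hp i).2)

/-- The power sum along a path. -/
noncomputable def powSum (q : ℝ) {m : ℕ} (p0 p1 : Fin m → ℝ) (t : ℝ) : ℝ :=
  ∑ k ∈ range (m + 1), bernoulliSumMass (fun i => (1 - t) * p0 i + t * p1 i) k ^ q

lemma powSum_concave_interior {q : ℝ} (hq : 0 < q) (hq1 : q < 1) {m : ℕ} (hm : 1 ≤ m)
    (p0 p1 : Fin m → ℝ) (h0 : ∀ i, p0 i ∈ Set.Ioo (0 : ℝ) 1) (h1 : ∀ i, p1 i ∈ Set.Ioo (0 : ℝ) 1) :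
    ConcaveOn ℝ (Set.Icc (0 : ℝ) 1) (powSum q p0 p1) := by
  set d : Fin m → ℝ := fun i => p1 i - p0 i with hd
  set c : ℝ → ℤ → ℤ → ℝ := fun t j k =>
    cf (fun i => p0 i + t * d i) (fun i => 1 - (p0 i + t * d i)) d univ j k with hc
  have hF : powSum q p0 p1 = fun t => ∑ k ∈ range (m + 1), c t 0 k ^ q := by
    funext t
    unfold powSum
    refine sum_congr rfl fun k _ => ?_
    rw [mass_eq_cf _ d]
    have : (fun i => (1 - t) * p0 i + t * p1 i) = fun i => p0 i + t * d i := by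
      funext i; simp only [hd]; ring
    simp only [hc]
    rw [this]
    congr 2
    funext i
    simp only [hd]; ring
  have hx : ∀ t ∈ Set.Icc (0 : ℝ) 1, ∀ i, 0 < p0 i + t * d i := by
    intro t ht i
    have a1 := h0 i; have a2 := h1 i
    simp only [hd]
    rcases eq_or_lt_of_le ht.1 with h | h
    · rw [← h]; simpa using a1.1
    · nlinarith [a1.1, a2.1, ht.2, mul_pos h a2.1, mul_nonneg (sub_nonneg.2 ht.2) a1.1.le]
  have hy : ∀ t ∈ Set.Icc (0 : ℝ) 1, ∀ i, 0 < 1 - (p0 i + t * d i) := by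
    intro t ht i
    have a1 := h0 i; have a2 := h1 i
    simp only [hd]
    rcases eq_or_lt_of_le ht.1 with h | h
    · rw [← h]; simpa using a1.2
    · nlinarith [mul_pos h (sub_pos.2 a2.2), mul_nonneg (sub_nonneg.2 ht.2) (sub_pos.2 a1.2).le]
  have hcard : (univ : Finset (Fin m)).card = m := by simp
  have hpos : ∀ t ∈ Set.Icc (0 : ℝ) 1, ∀ k : ℤ, 0 ≤ k → k ≤ m → 0 < c t 0 k := by
    intro t ht k a b
    exact cf_zero_pos d (hx t ht) (hy t ht) univ k a (by rw [hcard]; exact b)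
  have hd0 : ∀ t (k : ℤ), HasDerivAt (fun t => c t 0 k) (c t 1 (k - 1) - c t 1 k) t := by
    intro t k
    have := hasDerivAt_cf p0 d t univ 0 k
    simpa [hc] using this
  have hd1 : ∀ t (k : ℤ), HasDerivAt (fun t => c t 1 k) (2 * c t 2 (k - 1) - 2 * c t 2 k) t := by
    intro t k
    have := hasDerivAt_cf p0 d t univ 1 k
    refine this.congr_deriv ?_
    simp only [hc]; norm_num; ring
  have D1 : ∀ t ∈ Set.Icc (0 : ℝ) 1, HasDerivAt (fun t => ∑ k ∈ range (m + 1), c t 0 k ^ q)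
      (∑ k ∈ range (m + 1), (c t 1 (k - 1) - c t 1 k) * q * c t 0 k ^ (q - 1)) t := by
    intro t ht
    apply HasDerivAt.fun_sum
    intro k hk
    have hk' : k ≤ m := by have := mem_range.1 hk; omega
    exact (hd0 t k).rpow_const (Or.inl (hpos t ht k (by omega) (by omega)).ne')
  have D2 : ∀ t ∈ Set.Icc (0 : ℝ) 1, HasDerivAt
      (fun t => ∑ k ∈ range (m + 1), (c t 1 (k - 1) - c t 1 k) * q * c t 0 k ^ (q - 1))
      (q * ∑ k ∈ range (m + 1), (c t 0 k ^ (-(1 - q)) *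
          (2 * c t 2 (k - 2) - 2 * (2 * c t 2 (k - 1)) + 2 * c t 2 k)
        - (1 - q) * c t 0 k ^ (-(1 - q)) / c t 0 k * (c t 1 (k - 1) - c t 1 k) ^ 2)) t := by
    intro t ht
    rw [mul_sum]
    apply HasDerivAt.fun_sum
    intro k hk
    have hk' : k ≤ m := by have := mem_range.1 hk; omega
    have hp := hpos t ht k (by omega) (by omega)
    have a1 := (((hd1 t (k - 1)).sub (hd1 t k)).mul_const q).mul
      ((hd0 t k).rpow_const (p := q - 1) (Or.inl hp.ne'))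
    refine HasDerivAt.congr_deriv a1 ?_
    have z1 : (k : ℤ) - 1 - 1 = k - 2 := by ring
    have z2 : -(1 - q) = q - 1 := by ring
    rw [z1, z2, Real.rpow_sub_one hp.ne' (q - 1)]
    simp only [Pi.sub_apply]
    field_simp
    ring
  rw [hF]
  have hint : interior (Set.Icc (0 : ℝ) 1) ⊆ Set.Icc 0 1 := interior_subset
  refine concaveOn_of_hasDerivWithinAt2_nonpos (convex_Icc 0 1)
    (fun t ht => (D1 t ht).continuousAt.continuousWithinAt)
    (fun t ht => (D1 t (hint ht)).hasDerivWithinAt)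
    (fun t ht => (D2 t (hint ht)).hasDerivWithinAt) ?_
  intro t ht
  have ht' := hint ht
  apply mul_nonpos_of_nonneg_of_nonpos hq.le
  refine sum_nonpos_of_key (r := 1 - q) (by linarith) (by linarith) m hm (c t 0) (c t 1)
    (fun k => 2 * c t 2 k) (hpos t ht') ?_ ?_ ?_ ?_ ?_ ?_ ?_ ?_
  · exact cf_neg_right _ _ _ _ _ _ (by omega)
  · exact cf_big _ _ _ _ _ _ (by rw [hcard]; omega)
  · simp only [hc]; rw [cf_neg_right _ _ _ _ _ _ (by omega)]; ring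
  · simp only [hc]; rw [cf_neg_right _ _ _ _ _ _ (by omega)]; ring
  · simp only [hc]; rw [cf_big _ _ _ _ _ _ (by rw [hcard]; omega)]; ring
  · simp only [hc]; rw [cf_big _ _ _ _ _ _ (by rw [hcard]; omega)]; ring
  · intro k hk
    exact strict_log_concave d (hx t ht') (hy t ht') univ k (by rw [hcard]; exact hk)
  · intro k hk
    exact key_ineq d (hx t ht') (hy t ht') univ k (by rw [hcard]; exact hk)

lemma concaveOn_of_tendsto {α : Type*} {l : Filter α} [l.NeBot] {F : α → ℝ → ℝ} {f : ℝ → ℝ}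
    {s : Set ℝ} (hs : Convex ℝ s) (hF : ∀ᶠ a in l, ConcaveOn ℝ s (F a))
    (hlim : ∀ t ∈ s, Tendsto (fun a => F a t) l (𝓝 (f t))) : ConcaveOn ℝ s f := by
  refine ⟨hs, fun x hx y hy a b ha hb hab => ?_⟩
  refine le_of_tendsto_of_tendsto (((hlim x hx).const_smul a).add ((hlim y hy).const_smul b))
    (hlim _ (hs hx hy ha hb hab)) ?_
  filter_upwards [hF] with e he
  exact he.2 hx hy ha hb hab

lemma powSum_concave {q : ℝ} (hq : 0 < q) (hq1 : q < 1) {m : ℕ} (hm : 1 ≤ m)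
    (p0 p1 : Fin m → ℝ) (h0 : ∀ i, p0 i ∈ Set.Icc (0 : ℝ) 1) (h1 : ∀ i, p1 i ∈ Set.Icc (0 : ℝ) 1) :
    ConcaveOn ℝ (Set.Icc (0 : ℝ) 1) (powSum q p0 p1) := by
  refine concaveOn_of_tendsto (l := 𝓝[>] (0 : ℝ))
    (F := fun e => powSum q (fun i => (1 - e) * p0 i + e / 2) (fun i => (1 - e) * p1 i + e / 2))
    (convex_Icc 0 1) ?_ ?_
  · filter_upwards [Ioo_mem_nhdsGT (zero_lt_one' ℝ)] with e he
    apply powSum_concave_interior hq hq1 hm
    · intro i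
      have := h0 i
      constructor <;> nlinarith [this.1, this.2, he.1, he.2]
    · intro i
      have := h1 i
      constructor <;> nlinarith [this.1, this.2, he.1, he.2]
  · intro t _
    have hcont : Continuous fun e : ℝ =>
        powSum q (fun i => (1 - e) * p0 i + e / 2) (fun i => (1 - e) * p1 i + e / 2) t := by
      unfold powSum bernoulliSumMass
      refine continuous_finsetSum _ fun k _ => Continuous.rpow_const ?_ fun _ => Or.inr hq.le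
      fun_prop
    have := (hcont.tendsto 0).mono_left (nhdsWithin_le_nhds (s := Set.Ioi 0))
    simpa using this

lemma path_mem {m : ℕ} {p0 p1 : Fin m → ℝ} (h0 : ∀ i, p0 i ∈ Set.Icc (0 : ℝ) 1)
    (h1 : ∀ i, p1 i ∈ Set.Icc (0 : ℝ) 1) {t : ℝ} (ht : t ∈ Set.Icc (0 : ℝ) 1) (i : Fin m) :
    (1 - t) * p0 i + t * p1 i ∈ Set.Icc (0 : ℝ) 1 := by
  have a := h0 i; have b := h1 i
  constructor
  · nlinarith [mul_nonneg (sub_nonneg.2 ht.2) a.1, mul_nonneg ht.1 b.1]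
  · nlinarith [mul_nonneg (sub_nonneg.2 ht.2) (sub_nonneg.2 a.2), mul_nonneg ht.1 (sub_nonneg.2 b.2)]

lemma powSum_pos (q : ℝ) {m : ℕ} {p0 p1 : Fin m → ℝ} (h0 : ∀ i, p0 i ∈ Set.Icc (0 : ℝ) 1)
    (h1 : ∀ i, p1 i ∈ Set.Icc (0 : ℝ) 1) {t : ℝ} (ht : t ∈ Set.Icc (0 : ℝ) 1) :
    0 < powSum q p0 p1 t := by
  have hn := mass_nonneg (path_mem h0 h1 ht)
  have hs := mass_sum (fun i => (1 - t) * p0 i + t * p1 i)
  obtain ⟨k, hk, hk'⟩ : ∃ k ∈ range (m + 1),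
      bernoulliSumMass (fun i => (1 - t) * p0 i + t * p1 i) k ≠ 0 := by
    apply exists_ne_zero_of_sum_ne_zero
    rw [hs]; norm_num
  refine sum_pos' (fun k _ => Real.rpow_nonneg (hn k) q) ⟨k, hk, ?_⟩
  exact Real.rpow_pos_of_pos (lt_of_le_of_ne (hn k) hk'.symm) q

lemma concaveOn_log_comp {s : Set ℝ} {F : ℝ → ℝ} (hF : ConcaveOn ℝ s F)
    (hpos : ∀ t ∈ s, 0 < F t) : ConcaveOn ℝ s (fun t => Real.log (F t)) := by
  refine ⟨hF.1, fun x hx y hy a b ha hb hab => ?_⟩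
  have h1 := strictConcaveOn_log_Ioi.concaveOn.2 (hpos x hx) (hpos y hy) ha hb hab
  have h2 := hF.2 hx hy ha hb hab
  have h3 : 0 < a • F x + b • F y := (convex_Ioi (0 : ℝ)) (hpos x hx) (hpos y hy) ha hb hab
  exact h1.trans (Real.log_le_log h3 h2)

lemma tendsto_tsallis {x : ℝ} (hx : 0 ≤ x) :
    Tendsto (fun q : ℝ => (x ^ q - x) / (1 - q)) (𝓝[<] 1) (𝓝 (-(x * Real.log x))) := by
  rcases eq_or_lt_of_le hx with h | h
  · subst h
    simp only [zero_mul, neg_zero]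
    refine tendsto_const_nhds.congr' ?_
    filter_upwards [Ioo_mem_nhdsLT (zero_lt_one' ℝ)] with q hq
    rw [Real.zero_rpow hq.1.ne']; simp
  · have hd := (Real.hasStrictDerivAt_const_rpow h 1).hasDerivAt
    have h2 := (hasDerivAt_iff_tendsto_slope.1 hd).neg
    rw [Real.rpow_one] at h2
    have h3 : 𝓝[<] (1 : ℝ) ≤ 𝓝[≠] 1 := nhdsWithin_mono _ fun q hq => ne_of_lt hq
    refine (h2.mono_left h3).congr' ?_
    filter_upwards [self_mem_nhdsWithin] with q hq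
    have hq' : q < 1 := hq
    have : q - 1 ≠ 0 := sub_ne_zero.2 (ne_of_lt hq')
    have h4 : 1 - q ≠ 0 := sub_ne_zero.2 (ne_of_gt hq')
    rw [slope_def_field, Real.rpow_one]
    field_simp
    ring

theorem pathEntropy_concave {q : ℝ} (hq : 0 < q) (hq1 : q ≤ 1) {m : ℕ} (hm : 1 ≤ m)
    (p0 p1 : Fin m → ℝ) (h0 : ∀ i, p0 i ∈ Set.Icc (0 : ℝ) 1) (h1 : ∀ i, p1 i ∈ Set.Icc (0 : ℝ) 1) :
    ConcaveOn ℝ (Set.Icc (0 : ℝ) 1) (pathEntropy q p0 p1) := by
  rcases eq_or_lt_of_le hq1 with h | h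
  · subst h
    refine concaveOn_of_tendsto (l := 𝓝[<] (1 : ℝ))
      (F := fun q t => (powSum q p0 p1 t - 1) / (1 - q)) (convex_Icc 0 1) ?_ ?_
    · filter_upwards [Ioo_mem_nhdsLT (zero_lt_one' ℝ)] with e he
      have a := ((powSum_concave he.1 he.2 hm p0 p1 h0 h1).add_const (-1)).smul
        (c := (1 - e)⁻¹) (inv_nonneg.2 (by linarith [he.2]))
      refine a.congr fun t _ => ?_
      simp only [Pi.add_apply, smul_eq_mul]
      rw [div_eq_inv_mul]; ring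
    · intro t ht
      have hn := mass_nonneg (path_mem h0 h1 ht)
      have hs := mass_sum (fun i => (1 - t) * p0 i + t * p1 i)
      have a := tendsto_finsetSum (range (m + 1)) fun k _ => tendsto_tsallis (hn k)
      simp only [pathEntropy, renyiEntropy, if_true]
      rw [sum_neg_distrib] at a
      refine a.congr fun e => ?_
      rw [← sum_div, sum_sub_distrib, hs]; rfl
  · have a := (concaveOn_log_comp (powSum_concave hq h hm p0 p1 h0 h1)
      (fun t ht => powSum_pos q h0 h1 ht)).smul (c := 1 / (1 - q))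
      (one_div_nonneg.2 (by linarith))
    refine a.congr fun t _ => ?_
    simp only [pathEntropy, renyiEntropy, if_neg h.ne, smul_eq_mul, powSum]

end Pool.Agent.MP_737f38_pr

end
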