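import Pool.Agent.Mg.F737f38q.Gb02cd6
import Pool.Agent.Mg.F737f38q.Geba001

set_option linter.all false

section

namespace Pool.Agent.MP_737f38_pr.Bin

open Finset

theorem sinh_Var {r : ℝ} (h0 : 0 ≤ r) (h1 : r ≤ 1) :
    Monotone fun s : ℝ => r * Real.sinh s - Real.sinh (r * s) := by
  have hd : ∀ s : ℝ, HasDerivAt (fun s : ℝ => r * Real.sinh s - Real.sinh (r * s))
      (r * Real.cosh s - Real.cosh (r * s) * r) s := fun s => by
    have a := (Real.hasDerivAt_sinh s).const_mul r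
    have b := ((hasDerivAt_id s).const_mul r).sinh
    simp only [id, mul_one] at b
    exact a.sub b
  refine monotone_of_deriv_nonneg (fun s => (hd s).differentiableAt) fun s => ?_
  rw [(hd s).deriv]
  have : Real.cosh (r * s) ≤ Real.cosh s := by
    rw [Real.cosh_le_cosh, abs_mul, abs_of_nonneg h0]
    exact mul_le_of_le_one_left (abs_nonneg s) h1
  nlinarith

/-- the chord inequality -/
theorem chord_Var {q t : ℝ} (h1 : 1 < q) (h2 : q ≤ 2) (ht : 0 < t) :
    (1 ≤ t → (t ^ q) ^ 2 - t ^ 2 ≤ (q - 1) * (t ^ 2 - 1) * t ^ q) ∧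
    (t ≤ 1 → (q - 1) * (t ^ 2 - 1) * t ^ q ≤ (t ^ q) ^ 2 - t ^ 2) := by
  have hm := sinh_Var (r := q - 1) (by linarith) (by linarith)
  obtain ⟨σ, hσ⟩ : ∃ σ, σ = Real.exp ((q - 1) * Real.log t) := ⟨_, rfl⟩
  have hσ0 : 0 < σ := hσ ▸ Real.exp_pos _
  have e1 : t ^ q = t * σ := by
    rw [hσ, Real.rpow_def_of_pos ht, show Real.log t * q = Real.log t + (q - 1) * Real.log t by
      ring, Real.exp_add, Real.exp_log ht]
  have e2 : (q - 1) * Real.sinh (Real.log t) - Real.sinh ((q - 1) * Real.log t) =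
      ((q - 1) * (t ^ 2 - 1) * t ^ q - ((t ^ q) ^ 2 - t ^ 2)) / (2 * t ^ 2 * σ) := by
    rw [Real.sinh_eq, Real.sinh_eq, Real.exp_neg, Real.exp_neg, ← hσ, Real.exp_log ht, e1]
    field_simp
  have hp : 0 < 2 * t ^ 2 * σ := by positivity
  constructor
  · intro h
    have := hm (Real.log_nonneg h)
    simp only [mul_zero, Real.sinh_zero, sub_zero] at this
    rw [e2, le_div_iff₀ hp] at this
    linarith
  · intro h
    have := hm (Real.log_nonpos ht.le h)
    simp only [mul_zero, Real.sinh_zero, sub_zero] at this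
    rw [e2, div_le_iff₀ hp] at this
    linarith

/-- one-point facts -/
theorem pt_Var {q : ℝ} {l d : ℝ → ℝ} (h1 : 1 < q) (h2 : q ≤ 2) (h : Mix q l d) {t : ℝ}
    (ht : 0 < t) : 0 ≤ l t ∧ 0 ≤ d t ∧ 0 ≤ 1 - l t - t * d t ∧
    (t ≤ 1 → 1 ≤ q * l t ∧ q * t ^ q * l t ≤ t ∧ t ^ q + t ^ 2 ≤ (1 + t) * (q * t ^ q * l t) ∧
      2 * t ^ 2 ≤ (1 + t) * (q * t ^ q * l t)) ∧
    (1 ≤ t → q * l t ≤ 1 ∧ t ≤ q * t ^ q * l t ∧ t ^ q + t ^ 2 ≤ (1 + t) * (q * t ^ q * l t) ∧
      2 ≤ (1 + t) * (q * l t)) := by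
  obtain ⟨ha, hb, hc⟩ := h
  have a := ha t ht
  have b := hb t ht
  have hτ : 0 < t ^ q := Real.rpow_pos_of_pos ht q
  have hl : 0 ≤ l t := by
    have := hc t t 0 1 0 0 0 ht ht le_rfl fun u hu => by
      have : 0 ≤ u / (u + t) := by positivity
      linarith
    linarith
  have hd : 0 ≤ d t := by
    have := hc t t 0 0 1 0 0 ht ht le_rfl fun u hu => by
      have : 0 ≤ u / (u + t) ^ 2 := by positivity
      linarith
    linarith
  have hA : 0 ≤ 1 - l t - t * d t := by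
    have := hc t t 1 (-1) (-t) 0 0 ht ht zero_le_one fun u hu => by
      have e : 1 + -1 * (u / (u + t)) + -t * (u / (u + t) ^ 2) + 0 * (u / (u + t)) +
          0 * (u / (u + t) ^ 2) = t ^ 2 / (u + t) ^ 2 := by field_simp; ring
      rw [e]; positivity
    linarith
  have hB : 1 + q * (t - 1) ≤ t ^ q := by
    have := one_add_mul_self_le_rpow_one_add (s := t - 1) (by linarith) h1.le
    rwa [show 1 + (t - 1) = t by ring] at this
  obtain ⟨c1, c2⟩ := chord_Var h1 h2 ht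
  have htd : 0 ≤ t * d t := by positivity
  have hone : t = 1 → q * l t = 1 ∧ t ^ q = 1 := fun e => by
    subst e
    rw [Real.one_rpow] at b ⊢
    exact ⟨by linarith, rfl⟩
  refine ⟨hl, hd, hA, fun h => ?_, fun h => ?_⟩
  · have hsq : t ^ 2 ≤ t ^ q := by
      rw [← Real.rpow_two]; exact Real.rpow_le_rpow_of_exponent_ge ht h h2
    rcases h.eq_or_lt with e | e
    · obtain ⟨e1, e2⟩ := hone e
      rw [e2, mul_one, e1, e]; norm_num
    · have hτ1 : 0 < 1 - t ^ q := sub_pos.2 (Real.rpow_lt_one ht.le e (by linarith))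
      have k : t ^ q + t ^ 2 ≤ (1 + t) * (q * t ^ q * l t) := by
        refine le_of_mul_le_mul_left ?_ hτ1
        have : (1 - t ^ q) * ((1 + t) * (q * t ^ q * l t)) =
          (1 + t) * (q * t ^ q) * ((1 - t ^ q) * l t) := by ring
        rw [this, a]
        have := c2 h
        linarith
      refine ⟨le_of_mul_le_mul_left ?_ hτ1, ?_, k, by linarith⟩
      · have : (1 - t ^ q) * (q * l t) = q * ((1 - t ^ q) * l t) := by ring
        rw [this, a]; linarith
      · have := mul_nonneg hτ1.le htd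
        linarith
  · have hsq : t ^ q ≤ t ^ 2 := by
      rw [← Real.rpow_two]; exact Real.rpow_le_rpow_of_exponent_le h h2
    rcases h.eq_or_lt with e | e
    · obtain ⟨e1, e2⟩ := hone e.symm
      rw [e2, mul_one, e1, ← e]; norm_num
    · have hτ1 : 0 < t ^ q - 1 := sub_pos.2 (Real.one_lt_rpow e (by linarith))
      have k : t ^ q + t ^ 2 ≤ (1 + t) * (q * t ^ q * l t) := by
        refine le_of_mul_le_mul_left ?_ hτ1
        have : (t ^ q - 1) * ((1 + t) * (q * t ^ q * l t)) =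
          - ((1 + t) * (q * t ^ q) * ((1 - t ^ q) * l t)) := by ring
        rw [this, a]
        have := c1 h
        linarith
      refine ⟨le_of_mul_le_mul_left ?_ hτ1, ?_, k, le_of_mul_le_mul_left ?_ hτ⟩
      · have : (t ^ q - 1) * (q * l t) = - (q * ((1 - t ^ q) * l t)) := by ring
        rw [this, a]; linarith
      · have := mul_nonneg hτ1.le htd
        linarith
      · linarith

theorem cub_Var {a U V : ℝ} (ha : 1 ≤ a) (hU : 0 < U) (_hV : 0 < V)
    (h : (2 ≤ a ∧ U ≤ 2 * V) ∨ 2 * U ≤ 3 * V) :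
    U * (a + 1 - V) * (a + U) ≤ 2 * a ^ 2 * (a + 1 + V) := by
  have h0 : 0 ≤ U * (a + U) := by positivity
  have h1 : 0 ≤ a ^ 2 := by positivity
  rcases h with ⟨h2, h3⟩ | h3
  · have e1 : U * (a + 1 - V) * (a + U) ≤ (U * (a + U)) * (a + 1 - U / 2) := by nlinarith
    have e2 : 2 * a ^ 2 * (a + 1 + U / 2) ≤ 2 * a ^ 2 * (a + 1 + V) := by nlinarith
    refine e1.trans (le_trans ?_ e2)
    obtain ⟨b, rfl⟩ : ∃ b, a = b + 2 := ⟨a - 2, by ring⟩
    have hb : 0 ≤ b := by linarith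
    nlinarith [mul_nonneg hU.le (sq_nonneg (U - (b + 2) - 1)), sq_nonneg (U - (b + 2) - 1),
      mul_nonneg hb (sq_nonneg (U - (b + 2) - 1)), mul_nonneg hb hb, mul_nonneg hb hU.le,
      mul_nonneg (mul_nonneg hb hb) hb, mul_nonneg (mul_nonneg hb hb) hU.le]
  · have e1 : U * (a + 1 - V) * (a + U) ≤ (U * (a + U)) * (a + 1 - 2 * U / 3) := by nlinarith
    have e2 : 2 * a ^ 2 * (a + 1 + 2 * U / 3) ≤ 2 * a ^ 2 * (a + 1 + V) := by nlinarith
    refine e1.trans (le_trans ?_ e2)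
    obtain ⟨b, rfl⟩ : ∃ b, a = b + 1 := ⟨a - 1, by ring⟩
    have hb : 0 ≤ b := by linarith
    nlinarith [mul_nonneg hU.le (sq_nonneg (U - (b + 1) - 1)), sq_nonneg (U - (b + 1) - 1),
      mul_nonneg hb (sq_nonneg (U - (b + 1) - 1)), mul_nonneg hb hb, mul_nonneg hb hU.le,
      mul_nonneg (mul_nonneg hb hb) hb, mul_nonneg (mul_nonneg hb hb) hU.le]

/-- the numerator of the kernel at an interior site -/
theorem num_Var {a n x u M₀ M₁ : ℝ} (ha : 1 ≤ a) (hn : 1 ≤ n)
    (han : (a = 1 ∧ n = 1) ∨ 2 ≤ a ∨ 2 ≤ n) (hx : 0 < x) (hu : 0 < u) (h0 : 0 ≤ M₀) (h1 : 0 ≤ M₁)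
    (p0 : (n + 1) * x ≤ a → a ≤ M₀) (p1 : a ≤ (n + 1) * x → 2 * a ^ 2 ≤ (a + (n + 1) * x) * M₀)
    (r0 : a + 1 ≤ n * x → n * x ≤ M₁)
    (r1 : n * x ≤ a + 1 → 2 * (n * x) ^ 2 ≤ (a + 1 + n * x) * M₁) :
    0 ≤ (1 + u) * (x * (n * (n + 1)) - a * (a + 1) * u) ^ 2 + (a + n + 1) ^ 2 * u *
      (x * (n * M₀ + (n + 1) * M₁ - n * (n + 1) * x) +
        u * (a * M₁ + (a + 1) * M₀ - a * (a + 1))) := by
  have fin : 0 ≤ n * M₀ + (n + 1) * M₁ - n * (n + 1) * x →
      0 ≤ a * M₁ + (a + 1) * M₀ - a * (a + 1) →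
      0 ≤ (1 + u) * (x * (n * (n + 1)) - a * (a + 1) * u) ^ 2 + (a + n + 1) ^ 2 * u *
      (x * (n * M₀ + (n + 1) * M₁ - n * (n + 1) * x) +
        u * (a * M₁ + (a + 1) * M₀ - a * (a + 1))) := fun e1 e2 => by positivity
  rcases le_total ((n + 1) * x) a with c | c
  · have := p0 c
    exact fin (by nlinarith) (by nlinarith)
  rcases le_total (a + 1) (n * x) with c' | c'
  · have := r0 c'
    exact fin (by nlinarith) (by nlinarith)
  have k0 := p1 c
  have k1 := r1 c'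
  have hnx : 0 < n * x := by positivity
  have D0 : 0 < a + (n + 1) * x := by positivity
  have D1 : 0 < a + 1 + n * x := by positivity
  rcases han with ⟨rfl, rfl⟩ | han
  · refine le_of_mul_le_mul_left ?_ (mul_pos D0 D1)
    have e0 : 0 ≤ (1 + 1 + 1 * x) * (9 * u * (x + 2 * u)) *
      ((1 + (1 + 1) * x) * M₀ - 2 * 1 ^ 2) := mul_nonneg (by positivity) (by linarith)
    have e1 : 0 ≤ (1 + (1 + 1) * x) * (9 * u * (2 * x + u)) *
      ((1 + 1 + 1 * x) * M₁ - 2 * (1 * x) ^ 2) := mul_nonneg (by positivity) (by linarith)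
    have e2 : 0 ≤ u * x * ((x - u) - (x - 1)) ^ 2 := by positivity
    have e3 : 0 ≤ (4 * (2 * x ^ 2 + 5 * x + 2) + u * (8 * x ^ 2 + 11 * x + 8)) *
      (x - u) ^ 2 := by positivity
    have e4 : 0 ≤ u * (36 * x ^ 2 + 27 * x + 36 * (u * x) + 36 * u) * (x - 1) ^ 2 := by
      positivity
    linarith
  have g1 := cub_Var (U := (n + 1) * x) (V := n * x) ha (by positivity) hnx (by
    rcases han with h | h
    · exact Or.inl ⟨h, by nlinarith⟩
    · exact Or.inr (by nlinarith))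
  have g2 := cub_Var (U := (a + 1) / x) (V := a / x) hn (by positivity) (by positivity) (by
    rcases han with h | h
    · refine Or.inr ?_
      rw [← mul_div_assoc, ← mul_div_assoc]
      exact div_le_div_of_nonneg_right (by linarith) hx.le
    · refine Or.inl ⟨h, ?_⟩
      rw [← mul_div_assoc]
      exact div_le_div_of_nonneg_right (by linarith) hx.le)
  have g3 : (a + 1) * ((n + 1) * x - a) * (a + 1 + n * x) ≤
      2 * (n * x) ^ 2 * (a + (n + 1) * x) := by
    have := mul_le_mul_of_nonneg_left g2 (show 0 ≤ x ^ 3 by positivity)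
    refine le_trans (le_of_eq ?_) (this.trans (le_of_eq ?_)) <;> field_simp <;> ring
  refine fin (le_of_mul_le_mul_left ?_ (mul_pos D0 D1)) (le_of_mul_le_mul_left ?_ (mul_pos D0 D1))
  · have e0 := mul_le_mul_of_nonneg_left k0 (show 0 ≤ n * (a + 1 + n * x) by positivity)
    have e1 := mul_le_mul_of_nonneg_left k1 (show 0 ≤ (n + 1) * (a + (n + 1) * x) by positivity)
    have e2 := mul_le_mul_of_nonneg_left g1 (show 0 ≤ n by positivity)
    linarith
  · have e0 := mul_le_mul_of_nonneg_left k0 (show 0 ≤ (a + 1) * (a + 1 + n * x) by positivity)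
    have e1 := mul_le_mul_of_nonneg_left k1 (show 0 ≤ a * (a + (n + 1) * x) by positivity)
    have e2 := mul_le_mul_of_nonneg_left g3 (show 0 ≤ a by positivity)
    linarith

/-- contribution of an edge to its upper site, `f` being `q * (φ - 2 c)` there -/
noncomputable def up (q x : ℝ) (l d : ℝ → ℝ) (α t f : ℝ) : ℝ :=
  α * l t * f - (q * (1 - l t - t * d t - x * d t) * (α * l t) +
    (α * (l t + t * d t) + x * (α * t) * d t))

/-- contribution of an edge to its lower site -/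
noncomputable def dn (q x : ℝ) (l d : ℝ → ℝ) (α t f : ℝ) : ℝ :=
  (α * l t - α + α * t) * f - q * (1 - l t - t * d t - x * d t) * (α * l t - α + α * t) + α +
    x * (α * t) - (α * (l t + t * d t) + x * (α * t) * d t)

theorem tel_Var {q : ℝ} {l d : ℝ → ℝ} (h : Mix q l d) (x α f : ℝ) {t : ℝ} (ht : 0 < t) :
    t ^ q * up q x l d α t (f + q * (1 + x)) = dn q x l d α t f := by
  have a := h.1 t ht
  have b := h.2.1 t ht
  unfold up dn
  linear_combination (- α * f + q * (1 - l t - t * d t - x * d t) * α + α) * a +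
    α * (1 + x) * b

theorem mid_Var {q : ℝ} {l d : ℝ → ℝ} (h1 : 1 < q) (h2 : q ≤ 2) (h : Mix q l d) {a n x : ℝ}
    (c : ℝ) (ha : 1 ≤ a) (hn : 1 ≤ n) (han : (a = 1 ∧ n = 1) ∨ 2 ≤ a ∨ 2 ≤ n) (hx : 0 < x) :
    up q x l d a ((n + 1) * x / a) (q * (a - n * x - 2 * c)) -
      dn q x l d (a + 1) (n * x / (a + 1)) (q * (a - n * x - 2 * c)) ≤
      q * (a - n * x - c) ^ 2 - a - x ^ 2 * n := by
  obtain ⟨s, hs⟩ : ∃ s, s = (n + 1) * x / a := ⟨_, rfl⟩
  obtain ⟨t, ht⟩ : ∃ t, t = n * x / (a + 1) := ⟨_, rfl⟩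
  have ha0 : 0 < a := by linarith
  have hn0 : 0 < n := by linarith
  have hs0 : 0 < s := by rw [hs]; positivity
  have ht0 : 0 < t := by rw [ht]; positivity
  have es : a * s = (n + 1) * x := by rw [hs]; field_simp
  have et : (a + 1) * t = n * x := by rw [ht]; field_simp
  obtain ⟨s1, -, -, s4, s5⟩ := pt_Var h1 h2 h hs0
  obtain ⟨t1, -, -, t4, t5⟩ := pt_Var h1 h2 h ht0
  have hτ : 0 < t ^ q := Real.rpow_pos_of_pos ht0 q
  obtain ⟨M₀, hM₀⟩ : ∃ M, M = a * (q * l s) := ⟨_, rfl⟩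
  obtain ⟨M₁, hM₁⟩ : ∃ M, M = (a + 1) * (q * t ^ q * l t) := ⟨_, rfl⟩
  have hq : 0 < q := by linarith
  have eM : M₁ = q * ((a + 1) * l t - (a + 1) + (a + 1) * t) := by
    rw [hM₁]; linear_combination (- q * (a + 1)) * h.1 t ht0
  have key := h.2.2 s t 1 (a - M₀ * (a + 1) + M₁ * a) (a * s + x ^ 2 * (n + 1) - M₀ * (s + x))
    (- (a + 1) + M₀ * (a + 1) - M₁ * a) (- (a + 1) * t - x ^ 2 * n + M₁ * (t + x)) hs0 ht0
    zero_le_one fun u hu => by
      have k := num_Var (M₀ := M₀) (M₁ := M₁) ha hn han hx hu (by rw [hM₀]; positivity)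
        (by rw [hM₁]; positivity)
        (fun e => by
          have := (s4 (by nlinarith)).1
          rw [hM₀]; nlinarith)
        (fun e => by
          have := mul_le_mul_of_nonneg_left (s5 (by nlinarith)).2.2.2 (sq_nonneg a)
          rw [hM₀, ← es]; linarith)
        (fun e => by
          have := (t5 (by nlinarith)).2.1
          rw [hM₁, ← et]; nlinarith)
        (fun e => by
          have := mul_le_mul_of_nonneg_left (t4 (by nlinarith)).2.2.2 (sq_nonneg (a + 1))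
          rw [hM₁, ← et]; linarith)
      refine le_trans (div_nonneg (mul_nonneg (sq_nonneg x) k)
        (sq_nonneg ((u * a + (n + 1) * x) * (u * (a + 1) + n * x)))) (le_of_eq ?_)
      rw [hs, ht]
      field_simp
      ring
  rw [← hs, ← ht]
  unfold up dn
  have sq := mul_nonneg hq.le
    (sq_nonneg (a - n * x - c - (a * l s - ((a + 1) * l t - (a + 1) + (a + 1) * t))))
  rw [eM, hM₀] at key
  rw [es]
  rw [et] at key sq ⊢
  linarith

theorem bot_Var {q : ℝ} {l d : ℝ → ℝ} (h1 : 1 < q) (h2 : q ≤ 2) (h : Mix q l d) {n x : ℝ}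
    (c : ℝ) (hn : 1 ≤ n) (hx : 0 < x) :
    - dn q x l d 1 (n * x) (q * (- (n * x) - 2 * c)) ≤ q * (- (n * x) - c) ^ 2 - x ^ 2 * n := by
  obtain ⟨t, ht⟩ : ∃ t, t = n * x := ⟨_, rfl⟩
  have ht0 : 0 < t := by rw [ht]; positivity
  have hxt : x ≤ t := by rw [ht]; nlinarith
  obtain ⟨t1, t2, t3, t4, t5⟩ := pt_Var h1 h2 h ht0
  have a := h.1 t ht0
  have b := h.2.1 t ht0
  have hq : 0 < q := by linarith
  have hτ : 0 < t ^ q := Real.rpow_pos_of_pos ht0 q
  obtain ⟨M, hM⟩ : ∃ M, M = q * t ^ q * l t := ⟨_, rfl⟩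
  have hM0 : 0 ≤ M := by rw [hM]; positivity
  have eM : M = q * (l t - 1 + t) := by rw [hM]; linear_combination (- q) * a
  rw [← hM] at t4 t5 b
  have key : 0 ≤ 1 - l t - t * d t + M * (t * d t) - x * d t * (t - M) := by
    have e0 : 0 ≤ M * (t * d t) := by positivity
    rcases le_or_gt 1 t with e | e
    · have := mul_nonneg (mul_nonneg hx.le t2) (sub_nonneg.2 (t5 e).2.1)
      linarith
    · obtain ⟨-, k1, k2, -⟩ := t4 e.le
      have hτ1 : 0 < 1 - t ^ q := sub_pos.2 (Real.rpow_lt_one ht0.le e hq)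
      have e1 := mul_nonneg (mul_nonneg (sub_nonneg.2 hxt) t2) (sub_nonneg.2 k1)
      have e2 : 0 ≤ 1 - l t - t * d t + (2 * M - t) * (t * d t) := by
        refine le_of_mul_le_mul_left ?_ hτ1
        have e3 := mul_nonneg hM0 (sub_nonneg.2 k1)
        have e4 : (1 - t ^ q) * (1 - l t - t * d t + (2 * M - t) * (t * d t)) =
            M - t ^ q + (2 * M - t) * (t - M) := by
          linear_combination (-1 : ℝ) * a + (2 * M - t - 1) * b
        rw [e4]; linarith
      linarith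
  have e : x ^ 2 * n = x * t := by rw [ht]; ring
  rw [← ht, e]
  unfold dn
  have sq := mul_nonneg hq.le (sq_nonneg (- t - c + (l t - 1 + t)))
  rw [eM] at key
  linarith

theorem top_Var {q : ℝ} {l d : ℝ → ℝ} (h1 : 1 < q) (h2 : q ≤ 2) (h : Mix q l d) {a x : ℝ}
    (c : ℝ) (ha : 1 ≤ a) (hx : 0 < x) :
    up q x l d a (x / a) (q * (a - 2 * c)) ≤ q * (a - c) ^ 2 - a := by
  obtain ⟨s, hs⟩ : ∃ s, s = x / a := ⟨_, rfl⟩
  have ha0 : 0 < a := by linarith
  have hs0 : 0 < s := by rw [hs]; positivity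
  have es : x = a * s := by rw [hs]; field_simp
  obtain ⟨t1, t2, t3, t4, t5⟩ := pt_Var h1 h2 h hs0
  have e1 := h.1 s hs0
  have e2 := h.2.1 s hs0
  have hq : 0 < q := by linarith
  have hτ : 0 < s ^ q := Real.rpow_pos_of_pos hs0 q
  have hm : 0 ≤ q * l s := by positivity
  have k0 : 0 ≤ s * (s * d s) := by positivity
  have k1 : 0 ≤ (2 * (q * l s) - 1) * (1 - l s - s * d s) + s * (s * d s) := by
    rcases le_or_gt s 1 with e | e
    · have := mul_nonneg (show 0 ≤ 2 * (q * l s) - 1 by linarith [(t4 e).1]) t3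
      linarith
    · obtain ⟨k2, -, k3, -⟩ := t5 e.le
      have hτ1 : 0 < s ^ q - 1 := sub_pos.2 (Real.one_lt_rpow e hq)
      refine le_of_mul_le_mul_left ?_ hτ1
      have e3 := mul_nonneg hτ.le (mul_nonneg hm (sub_nonneg.2 k2))
      have e4 : (s ^ q - 1) * ((2 * (q * l s) - 1) * (1 - l s - s * d s) + s * (s * d s)) =
          (2 * (q * l s) - 1) * (s ^ q - q * s ^ q * l s) + s * (q * s ^ q * l s - s) := by
        linear_combination (2 * (q * l s) - 1) * e1 + (2 * (q * l s) - 1 - s) * e2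
      rw [e4]; linarith
  have k2 := mul_nonneg ha0.le (add_nonneg k1
    (mul_nonneg (sub_nonneg.2 ha) (add_nonneg k0 (mul_nonneg hm t3))))
  rw [← hs, es]
  unfold up
  have sq := mul_nonneg hq.le (sq_nonneg (a - c - a * l s))
  linarith

theorem bVar (H : BMix) : BVar := by
  intro q m x c h1 h2 hm hx
  obtain ⟨l, d, h⟩ := H q h1 h2
  obtain ⟨w, hw⟩ : ∃ w : ℕ → ℝ, w = fun k => ((m.choose k : ℝ) * x ^ k) ^ q := ⟨_, rfl⟩
  obtain ⟨R, hR⟩ : ∃ R : ℕ → ℝ, R = fun k => if k = 0 ∨ m < k then 0 else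
    w k * up q x l d k (((m : ℝ) - k + 1) * x / k) (q * (k - ((m : ℝ) - k) * x - 2 * c)) :=
    ⟨_, rfl⟩
  have hw0 : ∀ k, 0 ≤ w k := fun k => by rw [hw]; positivity
  have hS : ∀ k : ℕ, k < m → R (k + 1) = w k * dn q x l d (k + 1)
      (((m : ℝ) - k) * x / (k + 1)) (q * (k - ((m : ℝ) - k) * x - 2 * c)) := fun k hk => by
    have hk' : (k : ℝ) < m := by exact_mod_cast hk
    have ht : 0 < ((m : ℝ) - k) * x / (k + 1) := div_pos (mul_pos (by linarith) hx) (by positivity)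
    have e : w (k + 1) = w k * (((m : ℝ) - k) * x / (k + 1)) ^ q := by
      rw [hw]
      simp only
      rw [← Real.mul_rpow (by positivity) ht.le]
      congr 1
      have := congrArg (Nat.cast : ℕ → ℝ) (Nat.choose_succ_right_eq m k)
      push_cast [Nat.cast_sub hk.le] at this
      field_simp
      linear_combination x ^ k * x * this
    rw [hR]
    simp only
    rw [if_neg (by omega), e, ← tel_Var h x _ _ ht, mul_assoc]
    push_cast
    congr 3 <;> ring
  have hT := Finset.sum_range_sub' R (m + 1)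
  have hR0 : R 0 = 0 := by rw [hR]; simp
  have hR1 : R (m + 1) = 0 := by rw [hR]; simp
  rw [hR0, hR1, sub_zero] at hT
  rw [← hT]
  refine Finset.sum_le_sum fun k hk => ?_
  have hk1 : k ≤ m := Nat.lt_succ_iff.1 (Finset.mem_range.1 hk)
  have hm1 : (1 : ℝ) ≤ m := by exact_mod_cast hm
  rw [show ((m.choose k : ℝ) * x ^ k) ^ q = w k by rw [hw]]
  rcases Nat.eq_zero_or_pos k with rfl | hk0
  · rw [hS 0 hm, hR0, zero_sub, ← mul_neg]
    refine mul_le_mul_of_nonneg_left ?_ (hw0 0)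
    have := bot_Var h1 h2 h c hm1 hx
    simpa using this
  have hk2 : (1 : ℝ) ≤ k := by exact_mod_cast hk0
  have hRk : R k = w k * up q x l d k (((m : ℝ) - k + 1) * x / k)
      (q * (k - ((m : ℝ) - k) * x - 2 * c)) := by
    rw [hR]; simp only; rw [if_neg (by omega)]
  rcases hk1.eq_or_lt with rfl | hk3
  · rw [hR1, hRk, sub_zero]
    refine mul_le_mul_of_nonneg_left ?_ (hw0 k)
    have := top_Var h1 h2 h c hk2 hx
    simpa using this
  rw [hS k hk3, hRk, ← mul_sub]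
  refine mul_le_mul_of_nonneg_left ?_ (hw0 k)
  have hn : (1 : ℝ) ≤ (m : ℝ) - k := by
    have : (k : ℝ) + 1 ≤ m := by exact_mod_cast hk3
    linarith
  refine mid_Var h1 h2 h c hk2 hn ?_ hx
  by_cases e1 : 2 ≤ k
  · exact Or.inr (Or.inl (by exact_mod_cast e1))
  by_cases e2 : k + 2 ≤ m
  · have : (k : ℝ) + 2 ≤ m := by exact_mod_cast e2
    exact Or.inr (Or.inr (by linarith))
  · obtain rfl : k = 1 := by omega
    obtain rfl : m = 2 := by omega
    exact Or.inl ⟨by norm_num, by norm_num⟩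

end Pool.Agent.MP_737f38_pr.Bin

end

section

/-! The Renyi entropy of order `q` of the binomial law is concave in `p` iff `q ≤ 2`. -/

namespace Pool.Agent.MP_737f38_pr.Bin

open Finset

theorem mass_const (m : ℕ) (p : ℝ) (k : ℕ) :
    bernoulliSumMass (fun _ : Fin m => p) k = (m.choose k : ℝ) * p ^ k * (1 - p) ^ (m - k) := by
  unfold bernoulliSumMass
  rw [sum_congr rfl (g := fun _ => p ^ k * (1 - p) ^ (m - k))]
  · simp [card_powersetCard, mul_assoc]
  · intro A hA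
    have := (mem_powersetCard.1 hA).2
    simp [card_compl, this]

theorem neg_log_iff {q : ℝ} (hq : 1 < q) (m : ℕ) :
    ConcaveOn ℝ (Set.Icc (0 : ℝ) 1)
      (fun p : ℝ => renyiEntropy q m (bernoulliSumMass fun _ : Fin m => p)) ↔
    ConvexOn ℝ (Set.Icc (0 : ℝ) 1) fun p => Real.log (pw q m p) := by
  have h1 : 0 < q - 1 := by linarith
  have e : ∀ p : ℝ, renyiEntropy q m (bernoulliSumMass fun _ : Fin m => p) =
      - ((q - 1)⁻¹ * Real.log (pw q m p)) := fun p => by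
    simp only [renyiEntropy, if_neg hq.ne', mass_const, pw]
    rw [← neg_mul, ← inv_neg, neg_sub, one_div]
  simp only [e]
  constructor
  · intro h
    refine (h.neg.smul h1.le).congr fun p _ => ?_
    simp only [Pi.neg_apply, neg_neg, smul_eq_mul]
    rw [← mul_assoc, mul_inv_cancel₀ h1.ne', one_mul]
  · intro h
    exact (h.smul (inv_nonneg.2 h1.le)).neg

theorem binomial_iff (m : ℕ) (hm : 1 ≤ m) (q : ℝ) (hq : 0 < q) :
    ConcaveOn ℝ (Set.Icc (0 : ℝ) 1)
      (fun p : ℝ => renyiEntropy q m (bernoulliSumMass fun _ : Fin m => p)) ↔ q ≤ 2 := by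
  rcases le_or_gt q 1 with h | h
  · refine iff_of_true ?_ (by linarith)
    refine (pathEntropy_concave hq h hm (fun _ => 0) (fun _ => 1) (fun _ => by simp)
      fun _ => by simp).congr fun t _ => ?_
    simp [pathEntropy]
  · rw [neg_log_iff h]
    exact ⟨fun c => not_lt.1 fun h2 => bNeg q m h2 hm c,
      fun h2 => bCvx (bVar (bMix bInt)) q m h h2 hm⟩

end Pool.Agent.MP_737f38_pr.Bin

end
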