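import Mathlib

set_option linter.all false

section

/-! Statements for the concavity of the Renyi entropy of binomial laws. -/

namespace Pool.Agent.MP_737f38_pr.Bin

open Finset

/-- sum of the `q`-th powers of the binomial masses -/
noncomputable def pw (q : ℝ) (m : ℕ) (p : ℝ) : ℝ :=
  ∑ k ∈ range (m + 1), ((m.choose k : ℝ) * p ^ k * (1 - p) ^ (m - k)) ^ q

/-- integral formula for `(1 - t) / (1 - t ^ q)`, `t = exp s` -/
def BInt : Prop := ∀ q : ℝ, 1 < q → q < 2 → ∃ ρ : ℝ → ℝ, (∀ y, 0 ≤ ρ y) ∧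
  MeasureTheory.Integrable ρ ∧ ∀ s : ℝ, s ≠ 0 →
    (1 - Real.exp (q * s)) * ∫ y, ρ y * (Real.exp y / (Real.exp y + Real.exp s)) = 1 - Real.exp s

/-- `l` is `(1 - t) / (1 - t ^ q)`, `d` is minus its derivative, and both are positive mixtures
of the kernels `u / (u + t)` and `u / (u + t) ^ 2` with total mass at most one -/
def Mix (q : ℝ) (l d : ℝ → ℝ) : Prop :=
  (∀ t, 0 < t → (1 - t ^ q) * l t = 1 - t) ∧
  (∀ t, 0 < t → (1 - t ^ q) * (t * d t) = t - q * t ^ q * l t) ∧
  ∀ s t c₀ c₁ c₂ c₃ c₄ : ℝ, 0 < s → 0 < t → 0 ≤ c₀ →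
    (∀ u : ℝ, 0 < u → 0 ≤ c₀ + c₁ * (u / (u + s)) + c₂ * (u / (u + s) ^ 2) +
      c₃ * (u / (u + t)) + c₄ * (u / (u + t) ^ 2)) →
    0 ≤ c₀ + c₁ * l s + c₂ * d s + c₃ * l t + c₄ * d t

def BMix : Prop := ∀ q : ℝ, 1 < q → q ≤ 2 → ∃ l d : ℝ → ℝ, Mix q l d

/-- variance inequality for the weights `(choose m k * x ^ k) ^ q` -/
def BVar : Prop := ∀ (q : ℝ) (m : ℕ) (x c : ℝ), 1 < q → q ≤ 2 → 1 ≤ m → 0 < x →
  0 ≤ ∑ k ∈ range (m + 1), ((m.choose k : ℝ) * x ^ k) ^ q *
    (q * ((k : ℝ) - ((m : ℝ) - k) * x - c) ^ 2 - k - x ^ 2 * ((m : ℝ) - k))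

/-- logarithmic convexity -/
def BCvx : Prop := ∀ (q : ℝ) (m : ℕ), 1 < q → q ≤ 2 → 1 ≤ m →
  ConvexOn ℝ (Set.Icc (0 : ℝ) 1) fun p => Real.log (pw q m p)

/-- failure above two -/
def BNeg : Prop := ∀ (q : ℝ) (m : ℕ), 2 < q → 1 ≤ m →
  ¬ ConvexOn ℝ (Set.Icc (0 : ℝ) 1) fun p => Real.log (pw q m p)

end Pool.Agent.MP_737f38_pr.Bin

end

section

namespace Pool.Agent.MP_737f38_pr.Bin

open Complex Filter Topology MeasureTheory Set
open scoped Real

theorem side_Int {Φ : ℂ × ℂ × ℂ → ℂ} (hm : Measurable Φ) (hc : ContinuousAt Φ 0)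
    {p : ℝ → ℝ → ℂ × ℂ × ℂ} (hp : ∀ R, Continuous (p R)) {r : ℝ → ℝ}
    (hr : Tendsto r atTop (𝓝 0)) (hb : ∀ R t, ‖p R t‖ ≤ r R) :
    Tendsto (fun R => ∫ t in -π..π, Φ (p R t)) atTop (𝓝 (2 * π * Φ 0)) := by
  have e : (2 * π * Φ 0 : ℂ) = ∫ _ in -π..π, Φ 0 := by
    rw [intervalIntegral.integral_const, real_smul]
    push_cast
    ring
  rw [e]
  obtain ⟨δ, h0, h1⟩ := Metric.continuousAt_iff.1 hc 1 one_pos
  refine intervalIntegral.tendsto_integral_filter_of_dominated_convergence (fun _ => ‖Φ 0‖ + 1)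
    (.of_forall fun R => (hm.comp (hp R).measurable).aestronglyMeasurable) ?_
    intervalIntegrable_const (.of_forall fun t _ => hc.tendsto.comp (squeeze_zero_norm
      (fun R => hb R t) hr))
  filter_upwards [hr.eventually (gt_mem_nhds h0)] with R hR
  refine .of_forall fun t _ => ?_
  have := h1 (x := p R t) (by rw [dist_zero_right]; exact (hb R t).trans_lt hR)
  rw [dist_eq_norm] at this
  linarith [norm_sub_norm_le (Φ (p R t)) (Φ 0)]

theorem E_mul_Int (z : ℂ) : z * dslope exp 0 z = exp z - 1 := by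
  simpa using sub_smul_dslope exp 0 z

theorem E_ne_Int {z : ℂ} (h : |z.im| < 2 * π) : dslope exp 0 z ≠ 0 := by
  rcases eq_or_ne z 0 with rfl | hz
  · simp
  intro h0
  have h1 := E_mul_Int z
  rw [h0, mul_zero, eq_comm, sub_eq_zero, exp_eq_one_iff] at h1
  obtain ⟨n, rfl⟩ := h1
  have h2 : ((n : ℂ) * (2 * π * I)).im = n * (2 * π) := by simp
  have h3 : (0 : ℝ) < 2 * π := by positivity
  rw [h2, abs_mul, abs_of_pos h3, mul_lt_iff_lt_one_left h3] at h
  have h4 : |n| < 1 := by exact_mod_cast h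
  rw [Int.abs_lt_one_iff.1 h4] at hz
  simp at hz

theorem ds_Int {f : ℂ → ℂ} (h : Differentiable ℂ f) (c : ℂ) : Differentiable ℂ (dslope f c) :=
  differentiableOn_univ.1 ((differentiableOn_dslope univ_mem).2 h.differentiableOn)

/-- the integrand -/
noncomputable def h_Int (q s : ℝ) (z : ℂ) : ℂ :=
  ((1 - exp z) * (1 - exp (q * s)) - (1 - exp s) * (1 - exp (q * z))) * exp z /
    ((1 - exp (q * z)) * (exp z - exp s))

theorem ext_Int {q s : ℝ} (h1 : 1 < q) (h2 : q < 2) (hs : s ≠ 0) : ∃ H : ℂ → ℂ,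
    DifferentiableOn ℂ H {z | |z.im| ≤ π} ∧ ∀ z : ℂ, z ≠ 0 → z ≠ s → H z = h_Int q s z := by
  set N : ℂ → ℂ := fun z => (1 - exp z) * (1 - exp (q * s)) - (1 - exp s) * (1 - exp (q * z))
    with hN
  have dN : Differentiable ℂ N := by fun_prop
  have dE := ds_Int differentiable_exp 0
  have d2 := ds_Int (ds_Int dN 0) s
  have a1 : ∀ z, z * dslope N 0 z = N z := fun z => by
    simpa [hN] using sub_smul_dslope N 0 z
  have a2 : dslope N 0 s = 0 := by
    have := a1 s
    rw [show N s = 0 by simp only [hN]; ring] at this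
    exact (mul_eq_zero.1 this).resolve_left (ofReal_ne_zero.2 hs)
  have a3 : ∀ z, (z - s) * dslope (dslope N 0) s z = dslope N 0 z := fun z => by
    simpa [a2] using sub_smul_dslope (dslope N 0) s z
  refine ⟨fun z => dslope (dslope N 0) s z * exp z /
    (-(q * dslope exp 0 (q * z)) * (exp s * dslope exp 0 (z - s))), ?_, fun z z0 zs => ?_⟩
  · refine DifferentiableOn.div (by fun_prop) (by fun_prop) fun z hz => ?_
    have hz' : |z.im| ≤ π := hz
    have := Real.pi_pos
    refine mul_ne_zero (neg_ne_zero.2 (mul_ne_zero (ofReal_ne_zero.2 (by linarith))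
      (E_ne_Int ?_))) (mul_ne_zero (exp_ne_zero _) (E_ne_Int ?_))
    · rw [im_ofReal_mul, abs_mul, abs_of_pos (by linarith : 0 < q)]
      nlinarith
    · rw [sub_im, ofReal_im, sub_zero]
      linarith
  · have b1 : 1 - exp (q * z) = z * -(q * dslope exp 0 (q * z)) := by
      linear_combination E_mul_Int (q * z)
    have b2 : exp z - exp s = (z - s) * (exp s * dslope exp 0 (z - s)) := by
      have : exp z = exp s * exp (z - s) := by rw [← exp_add, add_sub_cancel]
      linear_combination this - exp s * E_mul_Int (z - s)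
    change _ = N z * exp z / _
    rw [b1, b2, ← a1, ← a3, mul_mul_mul_comm, ← mul_assoc, mul_assoc (z * (z - s)),
      mul_div_mul_left _ _ (mul_ne_zero z0 (sub_ne_zero.2 zs))]

/-- the density -/
noncomputable def rho_Int (q y : ℝ) : ℝ :=
  (1 + Real.exp y) * Real.exp (q * y) * -Real.sin (q * π) /
    (π * (1 - 2 * Real.exp (q * y) * Real.cos (q * π) + Real.exp (q * y) ^ 2))

theorem sin_Int {q : ℝ} (h1 : 1 < q) (h2 : q < 2) : 0 < -Real.sin (q * π) := by
  have := Real.pi_pos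
  rw [← Real.sin_sub_pi]
  exact Real.sin_pos_of_pos_of_lt_pi (by nlinarith) (by nlinarith)

theorem den_Int (θ w : ℝ) : Real.sin θ ^ 2 ≤ 1 - 2 * w * Real.cos θ + w ^ 2 ∧
    Real.sin θ ^ 2 * w ^ 2 ≤ 1 - 2 * w * Real.cos θ + w ^ 2 := by
  rw [Real.sin_sq]
  constructor <;> nlinarith [sq_nonneg (w - Real.cos θ), sq_nonneg (1 - w * Real.cos θ)]

theorem rho_facts_Int {q : ℝ} (h1 : 1 < q) (h2 : q < 2) :
    (∀ y, 0 ≤ rho_Int q y) ∧ Continuous (rho_Int q) ∧ Integrable (rho_Int q) := by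
  have hσ := sin_Int h1 h2
  have hπ := Real.pi_pos
  have hσ2 : 0 < Real.sin (q * π) ^ 2 := by nlinarith
  have hD : ∀ y, 0 < 1 - 2 * Real.exp (q * y) * Real.cos (q * π) + Real.exp (q * y) ^ 2 :=
    fun y => hσ2.trans_le (den_Int _ _).1
  have h0 : ∀ y, 0 ≤ rho_Int q y := fun y => by
    have := hD y
    unfold rho_Int
    positivity
  have hc : Continuous (rho_Int q) := by
    unfold rho_Int
    exact Continuous.div (by fun_prop) (by fun_prop) fun y => (mul_pos hπ (hD y)).ne'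
  refine ⟨h0, hc, ?_⟩
  rw [← integrableOn_univ, ← Iic_union_Ioi (a := (0 : ℝ))]
  refine IntegrableOn.union ?_ ?_
  · refine ((integrableOn_exp_mul_Iic (a := q) (by linarith) 0).const_mul
      (2 / (π * -Real.sin (q * π)))).mono' hc.aestronglyMeasurable
      ((ae_restrict_iff' measurableSet_Iic).2 (.of_forall fun y hy => ?_))
    have a1 : Real.exp y ≤ 1 := Real.exp_le_one_iff.2 hy
    have a2 := (den_Int (q * π) (Real.exp (q * y))).1
    have a3 := Real.exp_pos (q * y)
    rw [Real.norm_of_nonneg (h0 y), rho_Int, div_mul_eq_mul_div,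
      div_le_div_iff₀ (mul_pos hπ (hD y)) (by positivity)]
    have a4 := mul_le_mul (by linarith : 1 + Real.exp y ≤ 2) a2 hσ2.le zero_le_two
    nlinarith [mul_le_mul_of_nonneg_left a4 (mul_pos hπ a3).le]
  · refine ((integrableOn_exp_mul_Ioi (a := 1 - q) (by linarith) 0).const_mul
      (2 / (π * -Real.sin (q * π)))).mono' hc.aestronglyMeasurable
      ((ae_restrict_iff' measurableSet_Ioi).2 (.of_forall fun y hy => ?_))
    have a1 : 1 ≤ Real.exp y := Real.one_le_exp (le_of_lt hy)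
    have a2 := (den_Int (q * π) (Real.exp (q * y))).2
    have a3 := Real.exp_pos (q * y)
    have a5 := Real.exp_pos ((1 - q) * y)
    have a6 : Real.exp y = Real.exp ((1 - q) * y) * Real.exp (q * y) := by
      rw [← Real.exp_add]; congr 1; ring
    rw [Real.norm_of_nonneg (h0 y), rho_Int, div_mul_eq_mul_div,
      div_le_div_iff₀ (mul_pos hπ (hD y)) (by positivity)]
    have a4 := mul_le_mul_of_nonneg_left a2 (mul_pos hπ a5).le
    have a7 := mul_le_mul_of_nonneg_right
      (by linarith : 1 + Real.exp y ≤ 2 * (Real.exp ((1 - q) * y) * Real.exp (q * y)))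
      (mul_pos (mul_pos hπ a3) hσ2).le
    nlinarith

theorem hor_Int {q : ℝ} (h1 : 1 < q) (h2 : q < 2) (s y : ℝ) :
    h_Int q s (y + (-π : ℝ) * I) - h_Int q s (y + π * I) = 2 * π * I * (1 - exp (q * s)) *
      ((rho_Int q y * (Real.exp y / (Real.exp y + Real.exp s)) : ℝ) : ℂ) := by
  have hσ := sin_Int h1 h2
  have hD : 0 < 1 - 2 * Real.exp (q * y) * Real.cos (q * π) + Real.exp (q * y) ^ 2 :=
    lt_of_lt_of_le (by nlinarith) (den_Int _ _).1
  have e1 : exp (y + π * I) = -exp y := by rw [exp_add, exp_pi_mul_I]; ring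
  have e2 : exp (y + (-π : ℝ) * I) = -exp y := by
    rw [exp_add, ofReal_neg, neg_mul, exp_neg, exp_pi_mul_I]; ring
  have e3 : exp (q * (y + π * I)) = exp (q * y) * (cos (q * π) + sin (q * π) * I) := by
    rw [← exp_mul_I, ← exp_add]; congr 1; ring
  have e4 : exp (q * (y + (-π : ℝ) * I)) = exp (q * y) * (cos (q * π) - sin (q * π) * I) := by
    rw [sub_eq_add_neg, ← neg_mul, ← sin_neg, ← cos_neg, ← exp_mul_I, ← exp_add]
    congr 1; push_cast; ring
  have e5 : (1 - exp (q * y) * (cos (q * π) + sin (q * π) * I)) *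
      (1 - exp (q * y) * (cos (q * π) - sin (q * π) * I))
      = 1 - 2 * exp (q * y) * cos (q * π) + exp (q * y) ^ 2 := by
    linear_combination exp (q * y) ^ 2 * sin_sq_add_cos_sq (q * π : ℂ)
      - exp (q * y) ^ 2 * sin (q * π) ^ 2 * I_sq
  have e6 : (1 - 2 * exp (q * y) * cos (q * π) + exp (q * y) ^ 2 : ℂ) ≠ 0 := by
    exact_mod_cast hD.ne'
  have e7 : (exp y + exp s : ℂ) ≠ 0 := by
    exact_mod_cast (add_pos (Real.exp_pos y) (Real.exp_pos s)).ne'
  have e8 : (π : ℂ) ≠ 0 := ofReal_ne_zero.2 Real.pi_ne_zero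
  unfold h_Int rho_Int
  push_cast
  push_cast at e2 e4
  rw [e1, e2, e3, e4, ← e5]
  rw [← e5] at e6
  obtain ⟨e9, e10⟩ := mul_ne_zero_iff.1 e6
  have e11 : (-exp y - exp s : ℂ) = -(exp y + exp s) := by ring
  rw [e11]
  generalize exp (y : ℂ) + exp (s : ℂ) = S at e7
  generalize hP : 1 - exp (q * y) * (cos (q * π) + sin (q * π) * I) = P at e9
  generalize hQ : 1 - exp (q * y) * (cos (q * π) - sin (q * π) * I) = Q at e10
  field_simp
  rw [← hP, ← hQ]
  ring

theorem bInt : BInt := by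
  intro q h1 h2
  obtain ⟨r0, rc, ri⟩ := rho_facts_Int h1 h2
  refine ⟨rho_Int q, r0, ri, fun s hs => ?_⟩
  obtain ⟨H, dH, eH⟩ := ext_Int h1 h2 hs
  have hπ := Real.pi_pos
  have ik : Integrable fun y => rho_Int q y * (Real.exp y / (Real.exp y + Real.exp s)) := by
    refine ri.mono' (Continuous.aestronglyMeasurable (rc.mul (Continuous.div (by fun_prop)
      (by fun_prop) fun y => by positivity))) (.of_forall fun y => ?_)
    have := r0 y
    rw [Real.norm_of_nonneg (by positivity)]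
    exact mul_le_of_le_one_right this ((div_le_one (by positivity)).2
      (by linarith [Real.exp_pos s]))
  have t1 := (((continuous_ofReal.tendsto _).comp (intervalIntegral_tendsto_integral ik
    tendsto_neg_atTop_atBot tendsto_id)).const_mul (2 * π * I * (1 - exp (q * s))))
  have tr : Tendsto (fun R : ℝ => Real.exp (-(1 * R)) + Real.exp (-(q * R))
      + Real.exp (-((q - 1) * R))) atTop (𝓝 0) := by
    have : ∀ c : ℝ, 0 < c → Tendsto (fun R : ℝ => Real.exp (-(c * R))) atTop (𝓝 0) := fun c hc =>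
      Real.tendsto_exp_neg_atTop_nhds_zero.comp (tendsto_id.const_mul_atTop hc)
    simpa using ((this 1 one_pos).add (this q (by linarith))).add (this (q - 1) (by linarith))
  have hb : ∀ (R : ℝ) (z : ℂ), z.re = -R → ‖(exp z, exp (q * z), exp ((q - 1 : ℝ) * z))‖ ≤
      Real.exp (-(1 * R)) + Real.exp (-(q * R)) + Real.exp (-((q - 1) * R)) := fun R z hz => by
    simp only [norm_prod_le_iff, norm_exp, re_ofReal_mul, hz, one_mul, mul_neg]
    have a1 := Real.exp_pos (-R)
    have a2 := Real.exp_pos (-(q * R))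
    have a3 := Real.exp_pos (-((q - 1) * R))
    exact ⟨by linarith, by linarith, by linarith⟩
  have t2 := side_Int (Φ := fun x => ((1 - exp (q * s)) * (x.2.1 - x.2.2) - (1 - exp s) *
    (x.2.1 - 1)) / ((x.2.1 - 1) * (1 - exp s * x.1))) (by fun_prop)
    (ContinuousAt.div (by fun_prop) (by fun_prop) (by simp))
    (p := fun R t => (exp (-(R + t * I)), exp (q * -(R + t * I)),
      exp ((q - 1 : ℝ) * -(R + t * I)))) (fun R => by fun_prop) tr fun R t => hb R _ (by simp)
  have t3 := side_Int (Φ := fun x => ((1 - x.1) * (1 - exp (q * s)) - (1 - exp s) *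
    (1 - x.2.1)) * x.1 / ((1 - x.2.1) * (x.1 - exp s))) (by fun_prop)
    (ContinuousAt.div (by fun_prop) (by fun_prop) (by simp))
    (p := fun R t => (exp ((-R : ℝ) + t * I), exp (q * ((-R : ℝ) + t * I)),
      exp ((q - 1 : ℝ) * ((-R : ℝ) + t * I)))) (fun R => by fun_prop) tr
      fun R t => hb R _ (by simp)
  have t4 := (t1.add (t2.const_mul I)).sub (t3.const_mul I)
  have key := tendsto_nhds_unique_of_eventuallyEq t4 (tendsto_const_nhds (x := (0 : ℂ))) (by
    filter_upwards [eventually_gt_atTop |s|] with R hR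
    have R0 : 0 < R := (abs_nonneg s).trans_lt hR
    have c0 := integral_boundary_rect_eq_zero_of_differentiableOn H ⟨-R, -π⟩ ⟨R, π⟩
      (dH.mono fun z hz => abs_le.2 (by simpa [uIcc_of_le (by linarith : -π ≤ π)] using hz.2))
    have ci : ∀ c : ℝ, |c| ≤ π → IntervalIntegrable (fun x : ℝ => H (x + c * I)) volume (-R) R :=
      fun c hc => (dH.continuousOn.comp_continuous (f := fun x : ℝ => (x + c * I : ℂ))
        (by fun_prop) fun x => by simpa using hc).intervalIntegrable _ _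
    have ne : ∀ x c : ℝ, c ≠ 0 ∨ |x| = R → H (x + c * I) = h_Int q s (x + c * I) :=
      fun x c hc => eH _ (fun h => by
        have a1 : x = 0 := by simpa using congrArg re h
        have a2 : c = 0 := by simpa using congrArg im h
        rcases hc with hc | hc
        · exact hc a2
        · rw [a1, abs_zero] at hc; exact R0.ne hc) fun h => by
        have a1 : x = s := by simpa using congrArg re h
        have a2 : c = 0 := by simpa using congrArg im h
        rcases hc with hc | hc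
        · exact hc a2
        · rw [a1] at hc; exact hR.ne hc
    dsimp only at c0
    rw [← intervalIntegral.integral_sub (ci (-π) (by rw [abs_neg, abs_of_pos hπ]))
      (ci π (abs_of_pos hπ).le)] at c0
    rw [← c0, smul_eq_mul, smul_eq_mul]
    simp only [Function.comp_apply, id]
    congr 2
    · rw [← intervalIntegral.integral_ofReal, ← intervalIntegral.integral_const_mul]
      refine intervalIntegral.integral_congr fun y _ => ?_
      rw [ne y (-π) (.inl (by linarith)), ne y π (.inl hπ.ne'), hor_Int h1 h2]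
    · congr 1
      refine intervalIntegral.integral_congr fun t _ => ?_
      rw [ne R t (.inr (abs_of_pos R0)), h_Int]
      generalize (R + t * I : ℂ) = z
      have a1 : exp ((q - 1 : ℝ) * -z) = exp (q * -z) * exp z := by
        rw [← exp_add]; congr 1; push_cast; ring
      have a2 : exp (q * -z) * exp (q * z) = 1 := by rw [← exp_add]; simp
      have a3 : exp (-z) * exp z = 1 := by rw [← exp_add]; simp
      rw [← mul_div_mul_right _ ((1 - exp (q * z)) * (exp z - exp s))
        (mul_ne_zero (exp_ne_zero (q * -z)) (exp_ne_zero (-z))), a1]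
      generalize exp (q * -z) = v at a2
      generalize exp (-z) = u at a3
      congr 1
      · linear_combination (-(1 - exp s) * exp z * u) * a2 + ((1 - exp s) * (v - 1)
          - (1 - exp z) * (1 - exp (q * s)) * v) * a3
      · linear_combination ((exp z - exp s) * u) * a2 + (1 - v) * a3
    · refine intervalIntegral.integral_congr fun t _ => ?_
      rw [ne (-R) t (.inr (by rw [abs_neg, abs_of_pos R0])), h_Int])
  have e8 : (2 * π * I : ℂ) ≠ 0 := two_pi_I_ne_zero
  simp only [Prod.fst_zero, Prod.snd_zero] at key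
  apply ofReal_injective
  push_cast
  refine mul_left_cancel₀ e8 ?_
  linear_combination key

end Pool.Agent.MP_737f38_pr.Bin

end

section

/-! A quotient of two power functions as a positive mixture of simple kernels. -/

namespace Pool.Agent.MP_737f38_pr.Bin

open MeasureTheory Filter Topology

lemma k1_bd_Mix {u t : ℝ} (hu : 0 < u) (ht : 0 < t) : ‖u / (u + t)‖ ≤ 1 := by
  rw [Real.norm_of_nonneg (by positivity), div_le_one (by positivity)]
  linarith

lemma k2_bd_Mix {u t : ℝ} (hu : 0 < u) (ht : 0 < t) : ‖u / (u + t) ^ 2‖ ≤ 1 / t := by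
  rw [Real.norm_of_nonneg (by positivity), div_le_div_iff₀ (by positivity) ht]
  nlinarith [mul_pos hu ht, mul_pos hu hu, mul_pos ht ht]

lemma k1_meas_Mix (t : ℝ) :
    AEStronglyMeasurable (fun y : ℝ => Real.exp y / (Real.exp y + t)) volume :=
  (by fun_prop : Measurable fun y : ℝ => Real.exp y / (Real.exp y + t)).aestronglyMeasurable

lemma k2_meas_Mix (t : ℝ) :
    AEStronglyMeasurable (fun y : ℝ => Real.exp y / (Real.exp y + t) ^ 2) volume :=
  (by fun_prop : Measurable fun y : ℝ => Real.exp y / (Real.exp y + t) ^ 2).aestronglyMeasurable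

variable {ρ : ℝ → ℝ}

lemma int1_Mix (hρ : Integrable ρ) {t : ℝ} (ht : 0 < t) :
    Integrable fun y => ρ y * (Real.exp y / (Real.exp y + t)) :=
  hρ.mul_bdd (k1_meas_Mix t) (Eventually.of_forall fun y => k1_bd_Mix (Real.exp_pos y) ht)

lemma int2_Mix (hρ : Integrable ρ) {t : ℝ} (ht : 0 < t) :
    Integrable fun y => ρ y * (Real.exp y / (Real.exp y + t) ^ 2) :=
  hρ.mul_bdd (k2_meas_Mix t) (Eventually.of_forall fun y => k2_bd_Mix (Real.exp_pos y) ht)

lemma deriv_Mix (hρ : Integrable ρ) {t : ℝ} (ht : 0 < t) :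
    HasDerivAt (fun x => ∫ y, ρ y * (Real.exp y / (Real.exp y + x)))
      (-∫ y, ρ y * (Real.exp y / (Real.exp y + t) ^ 2)) t := by
  have h2 : 0 < t / 2 := by positivity
  rw [← integral_neg]
  refine (hasDerivAt_integral_of_dominated_loc_of_deriv_le (s := Set.Ioi (t / 2))
    (F := fun x y => ρ y * (Real.exp y / (Real.exp y + x)))
    (F' := fun x y => -(ρ y * (Real.exp y / (Real.exp y + x) ^ 2)))
    (bound := fun y => ‖ρ y‖ * (1 / (t / 2))) (Ioi_mem_nhds (by linarith))
    (Eventually.of_forall fun x => hρ.1.mul (k1_meas_Mix x)) (int1_Mix hρ ht)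
    (int2_Mix hρ ht).neg.1 (Eventually.of_forall fun y x hx => ?_) (hρ.norm.mul_const _)
    (Eventually.of_forall fun y x hx => ?_)).2
  · have hx' : t / 2 < x := hx
    rw [norm_neg, norm_mul]
    refine mul_le_mul_of_nonneg_left ((k2_bd_Mix (Real.exp_pos y) (h2.trans hx')).trans ?_)
      (norm_nonneg _)
    exact one_div_le_one_div_of_le h2 hx'.le
  · have hx' : t / 2 < x := hx
    have h0 : Real.exp y + x ≠ 0 := by
      have := Real.exp_pos y
      linarith
    have h1 : HasDerivAt (fun x => Real.exp y + x) 1 x := (hasDerivAt_id x).const_add _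
    have h3 := (((hasDerivAt_const x (Real.exp y)).fun_div h1 h0)).const_mul (ρ y)
    refine h3.congr_deriv ?_
    ring

lemma mass_Mix (hρ : Integrable ρ)
    (h : ∀ t, 0 < t → t < 1 → ∫ y, ρ y * (Real.exp y / (Real.exp y + t)) ≤ 1) :
    ∫ y, ρ y ≤ 1 := by
  have h1 : Tendsto (fun t : ℝ => ∫ y, ρ y * (Real.exp y / (Real.exp y + t))) (𝓝[>] 0)
      (𝓝 (∫ y, ρ y)) := by
    refine tendsto_integral_filter_of_dominated_convergence (fun y => ‖ρ y‖)
      (Eventually.of_forall fun x => hρ.1.mul (k1_meas_Mix x)) ?_ hρ.norm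
      (Eventually.of_forall fun y => ?_)
    · filter_upwards [self_mem_nhdsWithin] with t ht
      refine Eventually.of_forall fun y => ?_
      rw [norm_mul]
      exact mul_le_of_le_one_right (norm_nonneg _) (k1_bd_Mix (Real.exp_pos y) ht)
    · have h0 : Real.exp y + 0 ≠ 0 := by
        rw [add_zero]
        exact (Real.exp_pos y).ne'
      have h2 : ContinuousAt (fun t : ℝ => ρ y * (Real.exp y / (Real.exp y + t))) 0 :=
        continuousAt_const.mul (continuousAt_const.div (by fun_prop) h0)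
      have h3 := h2.tendsto.mono_left (nhdsWithin_le_nhds (s := Set.Ioi 0))
      rwa [add_zero, div_self (Real.exp_pos y).ne', mul_one] at h3
  refine le_of_tendsto h1 ?_
  filter_upwards [self_mem_nhdsWithin, nhdsWithin_le_nhds (Iio_mem_nhds one_pos)] with t h0 h2
  exact h t h0 h2

lemma two_Mix : Mix 2 (fun t => 1 / (1 + t)) (fun t => 1 / (1 + t) ^ 2) := by
  refine ⟨fun t ht => ?_, fun t ht => ?_, fun s t c₀ c₁ c₂ c₃ c₄ _ _ _ h => h 1 one_pos⟩
  · rw [Real.rpow_two]
    field_simp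
    ring
  · rw [Real.rpow_two]
    field_simp
    ring

theorem bMix (h : BInt) : BMix := by
  intro q h1 h2
  rcases h2.eq_or_lt with rfl | h2
  · exact ⟨_, _, two_Mix⟩
  obtain ⟨ρ, h0, hρ, hs⟩ := h q h1 h2
  have c1 : ∀ t : ℝ, 0 < t →
      (1 - t ^ q) * ∫ y, ρ y * (Real.exp y / (Real.exp y + t)) = 1 - t := by
    intro t ht
    by_cases e : t = 1
    · rw [e, Real.one_rpow, sub_self, zero_mul]
    · have := hs (Real.log t) (Real.log_ne_zero_of_pos_of_ne_one ht e)
      rwa [Real.exp_log ht, mul_comm q, ← Real.rpow_def_of_pos ht] at this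
  have hM : ∫ y, ρ y ≤ 1 := by
    refine mass_Mix hρ fun t ht ht1 => ?_
    have e1 := c1 t ht
    have e2 : t ^ q ≤ t := by
      have := Real.rpow_le_rpow_of_exponent_ge ht ht1.le h1.le
      rwa [Real.rpow_one] at this
    by_contra hc
    have hc' := not_le.1 hc
    nlinarith
  refine ⟨fun t => ∫ y, ρ y * (Real.exp y / (Real.exp y + t)),
    fun t => ∫ y, ρ y * (Real.exp y / (Real.exp y + t) ^ 2), c1, fun t ht => ?_, ?_⟩
  · have d1 : HasDerivAt (fun x : ℝ => x ^ q) (q * t ^ (q - 1)) t :=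
      Real.hasDerivAt_rpow_const (Or.inl ht.ne')
    have d2 := (d1.const_sub 1).fun_mul (deriv_Mix hρ ht)
    have d3 : HasDerivAt (fun x : ℝ => 1 - x) (-1) t := (hasDerivAt_id t).const_sub 1
    have d4 := d3.congr_of_eventuallyEq
      (f₁ := fun x : ℝ => (1 - x ^ q) * ∫ y, ρ y * (Real.exp y / (Real.exp y + x)))
      (by filter_upwards [Ioi_mem_nhds ht] with x hx using c1 x hx)
    have d5 := d2.unique d4
    have e : t ^ q = t * t ^ (q - 1) := by
      rw [Real.rpow_sub_one ht.ne']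
      field_simp
    beta_reduce
    generalize (∫ y, ρ y * (Real.exp y / (Real.exp y + t))) = l at d5 ⊢
    generalize (∫ y, ρ y * (Real.exp y / (Real.exp y + t) ^ 2)) = d at d5 ⊢
    rw [e] at d5 ⊢
    linear_combination (-t) * d5
  · intro s t c₀ c₁ c₂ c₃ c₄ hs' ht hc hu
    have i0 := hρ.const_mul c₀
    have i1 := (int1_Mix hρ hs').const_mul c₁
    have i2 := (int2_Mix hρ hs').const_mul c₂
    have i3 := (int1_Mix hρ ht).const_mul c₃
    have i4 := (int2_Mix hρ ht).const_mul c₄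
    have key : 0 ≤ ∫ y, (c₀ * ρ y + c₁ * (ρ y * (Real.exp y / (Real.exp y + s))) +
        c₂ * (ρ y * (Real.exp y / (Real.exp y + s) ^ 2)) +
        c₃ * (ρ y * (Real.exp y / (Real.exp y + t))) +
        c₄ * (ρ y * (Real.exp y / (Real.exp y + t) ^ 2))) := by
      refine integral_nonneg fun y => ?_
      have := mul_nonneg (h0 y) (hu _ (Real.exp_pos y))
      refine this.trans_eq ?_
      ring
    have a1 := integral_add i0 i1
    have a2 := integral_add (i0.add i1) i2
    have a3 := integral_add ((i0.add i1).add i2) i3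
    have a4 := integral_add (((i0.add i1).add i2).add i3) i4
    simp only [Pi.add_apply] at a2 a3 a4
    rw [a4, a3, a2, a1, integral_const_mul, integral_const_mul,
      integral_const_mul, integral_const_mul, integral_const_mul] at key
    have := mul_le_of_le_one_right hc hM
    beta_reduce
    linarith

end Pool.Agent.MP_737f38_pr.Bin

end

section

namespace Pool.Agent.MP_737f38_pr.Bin

open Finset

/-- binomial mass -/
noncomputable def f_Cvx (m k : ℕ) (p : ℝ) : ℝ :=
  (m.choose k : ℝ) * p ^ k * (1 - p) ^ (m - k)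

/-- logarithmic derivative of the mass -/
noncomputable def s_Cvx (m k : ℕ) (p : ℝ) : ℝ := k / p - ((m - k : ℕ) : ℝ) / (1 - p)

/-- derivative of the logarithmic derivative -/
noncomputable def t_Cvx (m k : ℕ) (p : ℝ) : ℝ :=
  -(k / p ^ 2) - ((m - k : ℕ) : ℝ) / (1 - p) ^ 2

theorem dpow_Cvx (k : ℕ) {p : ℝ} (hp : p ≠ 0) :
    HasDerivAt (fun p : ℝ => p ^ k) (k / p * p ^ k) p := by
  refine (hasDerivAt_pow k p).congr_deriv ?_
  cases k with
  | zero => simp
  | succ k => rw [Nat.add_sub_cancel, pow_succ]; field_simp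

theorem fpos_Cvx {m k : ℕ} (hk : k ≤ m) {p : ℝ} (h0 : 0 < p) (h1 : p < 1) :
    0 < f_Cvx m k p := by
  have : (0 : ℝ) < m.choose k := by exact_mod_cast Nat.choose_pos hk
  have : 0 < 1 - p := by linarith
  unfold f_Cvx
  positivity

theorem df_Cvx (m k : ℕ) {p : ℝ} (h0 : 0 < p) (h1 : p < 1) :
    HasDerivAt (f_Cvx m k) (s_Cvx m k p * f_Cvx m k p) p := by
  have h2 : 1 - p ≠ 0 := by linarith
  have a := dpow_Cvx k h0.ne'
  have b := (dpow_Cvx (m - k) h2).comp p ((hasDerivAt_id p).const_sub 1)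
  have c := (a.const_mul (m.choose k : ℝ)).mul b
  refine HasDerivAt.congr_deriv (f := f_Cvx m k) c ?_
  simp only [s_Cvx, f_Cvx, Function.comp]
  ring

theorem dg_Cvx {m k : ℕ} (hk : k ≤ m) (q : ℝ) {p : ℝ} (h0 : 0 < p) (h1 : p < 1) :
    HasDerivAt (fun p => f_Cvx m k p ^ q) (q * (s_Cvx m k p * f_Cvx m k p ^ q)) p := by
  have hf := fpos_Cvx hk h0 h1
  refine ((df_Cvx m k h0 h1).rpow_const (p := q) (Or.inl hf.ne')).congr_deriv ?_
  rw [Real.rpow_sub_one hf.ne']
  field_simp

theorem ds_Cvx (m k : ℕ) {p : ℝ} (h0 : 0 < p) (h1 : p < 1) :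
    HasDerivAt (s_Cvx m k) (t_Cvx m k p) p := by
  have h2 : 1 - p ≠ 0 := by linarith
  have a := (hasDerivAt_const p (k : ℝ)).div (hasDerivAt_id p) h0.ne'
  have b := (hasDerivAt_const p ((m - k : ℕ) : ℝ)).div ((hasDerivAt_id p).const_sub 1) h2
  refine HasDerivAt.congr_deriv (f := s_Cvx m k) (a.sub b) ?_
  simp only [t_Cvx, id]
  ring

theorem pwpos_Cvx (q : ℝ) (m : ℕ) {p : ℝ} (h0 : 0 ≤ p) (h1 : p ≤ 1) : 0 < pw q m p := by
  have h2 : 0 ≤ 1 - p := by linarith
  refine sum_pos' (fun k _ => by positivity) ?_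
  rcases h1.lt_or_eq with h | h
  · refine ⟨0, by simp, Real.rpow_pos_of_pos ?_ _⟩
    have : 0 < 1 - p := by linarith
    simp only [Nat.choose_zero_right, Nat.cast_one, pow_zero, mul_one, one_mul]
    positivity
  · exact ⟨m, by simp, Real.rpow_pos_of_pos (by simp [h]) _⟩

theorem key_Cvx (h : BVar) {q : ℝ} {m : ℕ} (hq : 1 < q) (hq2 : q ≤ 2) (hm : 1 ≤ m) {p : ℝ}
    (h0 : 0 < p) (h1 : p < 1) (c : ℝ) :
    0 ≤ ∑ k ∈ range (m + 1),
      f_Cvx m k p ^ q * (q * (p * s_Cvx m k p - c) ^ 2 + p ^ 2 * t_Cvx m k p) := by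
  have h2 : 0 < 1 - p := by linarith
  have hx : 0 < p / (1 - p) := div_pos h0 h2
  have a := mul_nonneg (Real.rpow_nonneg (pow_nonneg h2.le m) q) (h q m _ c hq hq2 hm hx)
  rw [mul_sum] at a
  refine a.trans_eq (sum_congr rfl fun k hk => ?_)
  have hk' : k ≤ m := Nat.lt_succ_iff.1 (mem_range.1 hk)
  have e : f_Cvx m k p = (1 - p) ^ m * ((m.choose k : ℝ) * (p / (1 - p)) ^ k) := by
    obtain ⟨j, rfl⟩ := Nat.exists_eq_add_of_le hk'
    rw [f_Cvx, Nat.add_sub_cancel_left, pow_add, div_pow]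
    field_simp
  rw [e, Real.mul_rpow (x := (1 - p) ^ m) (by positivity) (by positivity), mul_assoc]
  congr 2
  simp only [s_Cvx, t_Cvx, Nat.cast_sub hk']
  field_simp
  ring

theorem bCvx (h : BVar) : BCvx := by
  intro q m hq hq2 hm
  have hq0 : 0 < q := by linarith
  let A : ℝ → ℝ := fun p => ∑ k ∈ range (m + 1), s_Cvx m k p * f_Cvx m k p ^ q
  let B : ℝ → ℝ := fun p => ∑ k ∈ range (m + 1),
    (t_Cvx m k p * f_Cvx m k p ^ q + s_Cvx m k p * (q * (s_Cvx m k p * f_Cvx m k p ^ q)))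
  have hle : ∀ k ∈ range (m + 1), k ≤ m := fun k hk => Nat.lt_succ_iff.1 (mem_range.1 hk)
  have d1 : ∀ p, 0 < p → p < 1 → HasDerivAt (pw q m) (q * A p) p := fun p h0 h1 => by
    have := HasDerivAt.fun_sum (u := range (m + 1)) fun k hk => dg_Cvx (hle k hk) q h0 h1
    rw [← mul_sum] at this
    exact this
  have d2 : ∀ p, 0 < p → p < 1 → HasDerivAt A (B p) p := fun p h0 h1 =>
    HasDerivAt.fun_sum (u := range (m + 1)) fun k hk =>
      (ds_Cvx m k h0 h1).mul (dg_Cvx (hle k hk) q h0 h1)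
  refine convexOn_of_hasDerivWithinAt2_nonneg (f' := fun p => q * A p / pw q m p)
    (f'' := fun p => (q * B p * pw q m p - q * A p * (q * A p)) / pw q m p ^ 2)
    (convex_Icc 0 1) ?_ (fun p hp => ?_) (fun p hp => ?_) (fun p hp => ?_)
  · refine ContinuousOn.log (Continuous.continuousOn ?_) fun p hp => (pwpos_Cvx q m hp.1 hp.2).ne'
    unfold pw
    exact continuous_finsetSum _ fun k _ =>
      Continuous.rpow_const (by fun_prop) fun _ => Or.inr hq0.le
  · rw [interior_Icc] at hp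
    exact ((d1 p hp.1 hp.2).log (pwpos_Cvx q m hp.1.le hp.2.le).ne').hasDerivWithinAt
  · rw [interior_Icc] at hp
    exact (((d2 p hp.1 hp.2).const_mul q).div (d1 p hp.1 hp.2)
      (pwpos_Cvx q m hp.1.le hp.2.le).ne').hasDerivWithinAt
  · rw [interior_Icc] at hp
    have hF := pwpos_Cvx q m hp.1.le hp.2.le
    refine div_nonneg ?_ (by positivity)
    have k := key_Cvx h hq hq2 hm hp.1 hp.2 (p * A p / pw q m p)
    have e : ∀ c : ℝ, ∑ k ∈ range (m + 1),
        f_Cvx m k p ^ q * (q * (p * s_Cvx m k p - c) ^ 2 + p ^ 2 * t_Cvx m k p) =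
        p ^ 2 * B p - 2 * q * p * c * A p + q * c ^ 2 * pw q m p := fun c => by
      simp only [A, B, pw, mul_sum, ← sum_sub_distrib, ← sum_add_distrib]
      refine sum_congr rfl fun k _ => ?_
      rw [← f_Cvx]
      ring
    rw [e] at k
    have e2 : q * B p * pw q m p - q * A p * (q * A p) = q * pw q m p / p ^ 2 *
        (p ^ 2 * B p - 2 * q * p * (p * A p / pw q m p) * A p +
          q * (p * A p / pw q m p) ^ 2 * pw q m p) := by
      have := hp.1.ne'
      field_simp
      ring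
    rw [e2]
    exact mul_nonneg (by positivity) k

end Pool.Agent.MP_737f38_pr.Bin

end

section

namespace Pool.Agent.MP_737f38_pr.Bin

open Finset

theorem split_Neg (q : ℝ) (m : ℕ) (p : ℝ) : pw q m p = ((1 - p) ^ m) ^ q +
    ∑ k ∈ range m, ((m.choose (k + 1) : ℝ) * p ^ (k + 1) * (1 - p) ^ (m - (k + 1))) ^ q := by
  rw [pw, sum_range_succ', add_comm]
  simp

theorem low_Neg (q : ℝ) (m : ℕ) {p : ℝ} (h0 : 0 ≤ p) (h1 : p ≤ 1) :
    ((1 - p) ^ m) ^ q ≤ pw q m p := by
  have : 0 ≤ 1 - p := sub_nonneg.2 h1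
  rw [split_Neg]
  exact le_add_of_nonneg_right (sum_nonneg fun k _ => by positivity)

theorem up_Neg {q : ℝ} (hq : 0 ≤ q) (m : ℕ) {h : ℝ} (h0 : 0 < h) (h1 : h ≤ 1 / 4) :
    pw q m (2 * h) ≤ ((1 - 2 * h) ^ m) ^ q * (1 + m * (2 ^ m * 4 * h) ^ q) := by
  have a0 : 0 < 1 - 2 * h := by linarith
  rw [split_Neg, mul_add, mul_one, mul_left_comm, ← Real.mul_rpow (by positivity) (by positivity)]
  refine add_le_add_right ((sum_le_card_nsmul _ _ _ fun k hk => ?_).trans_eq
    (by rw [card_range, nsmul_eq_mul])) _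
  refine Real.rpow_le_rpow (by positivity) ?_ hq
  have hk' := mem_range.1 hk
  have e : (1 - 2 * h) ^ m = (1 - 2 * h) ^ (k + 1) * (1 - 2 * h) ^ (m - (k + 1)) := by
    rw [← pow_add, Nat.add_sub_cancel' hk']
  have b1 : (m.choose (k + 1) : ℝ) ≤ 2 ^ m := by exact_mod_cast Nat.choose_le_two_pow m (k + 1)
  have b2 : (2 * h) ^ (k + 1) ≤ (1 - 2 * h) ^ (k + 1) * (4 * h) := by
    rw [pow_succ, pow_succ, mul_assoc]
    exact mul_le_mul (pow_le_pow_left₀ (by positivity) (by linarith) k) (by nlinarith)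
      (by positivity) (by positivity)
  calc (m.choose (k + 1) : ℝ) * (2 * h) ^ (k + 1) * (1 - 2 * h) ^ (m - (k + 1))
      ≤ 2 ^ m * ((1 - 2 * h) ^ (k + 1) * (4 * h)) * (1 - 2 * h) ^ (m - (k + 1)) := by gcongr
    _ = _ := by rw [e]; ring

theorem bNeg : BNeg := by
  intro q m hq hm hc
  have q0 : 0 < q := by linarith
  have q2 : 0 < q - 2 := by linarith
  set K : ℝ := (2 ^ m * 4) ^ q with hK
  have K0 : 0 < K := by positivity
  set h : ℝ := min (1 / 4) (K⁻¹ ^ (q - 2)⁻¹) with hh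
  have h0 : 0 < h := lt_min (by norm_num) (by positivity)
  have h1 : h ≤ 1 / 4 := min_le_left _ _
  have h2 : h ^ (q - 2) ≤ K⁻¹ := by
    rw [← Real.rpow_inv_rpow (inv_pos.2 K0).le q2.ne']
    exact Real.rpow_le_rpow h0.le (min_le_right _ _) q2.le
  have h3 : (2 ^ m * 4 * h) ^ q ≤ h ^ 2 := by
    rw [Real.mul_rpow (by positivity) h0.le, ← hK, show h ^ q = h ^ (q - 2) * h ^ 2 by
      rw [← Real.rpow_two, ← Real.rpow_add h0, sub_add_cancel], ← mul_assoc]
    refine mul_le_of_le_one_left (sq_nonneg _) ?_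
    rw [← mul_inv_cancel₀ K0.ne']
    exact mul_le_mul_of_nonneg_left h2 K0.le
  clear_value h
  have a0 : 0 < 1 - 2 * h := by linarith
  have a1 : 0 < 1 - h := by linarith
  have c0 : pw q m 0 = 1 := by simp [split_Neg, Real.zero_rpow q0.ne']
  have c1 := @hc.2 0 ⟨le_rfl, zero_le_one⟩ (2 * h) ⟨by linarith, by linarith⟩
    (1 / 2) (1 / 2) (by norm_num) (by norm_num) (by norm_num)
  simp only [smul_eq_mul, c0, Real.log_one, mul_zero, zero_add] at c1
  rw [show 1 / 2 * (2 * h) = h by ring] at c1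
  have c2 := Real.log_le_log (by positivity) (low_Neg q m h0.le (by linarith))
  have c3 := Real.log_le_log (lt_of_lt_of_le (by positivity)
    (low_Neg q m (p := 2 * h) (by linarith) (by linarith))) (up_Neg q0.le m h0 h1)
  rw [Real.log_mul (by positivity) (by positivity)] at c3
  rw [Real.log_rpow (by positivity), Real.log_pow] at c2 c3
  have c4 := Real.log_le_sub_one_of_pos (x := 1 + m * (2 ^ m * 4 * h) ^ q) (by positivity)
  have c5 := Real.log_le_sub_one_of_pos (x := (1 - 2 * h) / (1 - h) ^ 2) (by positivity)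
  rw [Real.log_div a0.ne' (by positivity), Real.log_pow] at c5
  have c6 : (1 - 2 * h) / (1 - h) ^ 2 ≤ 1 - h ^ 2 := by
    rw [div_le_iff₀ (by positivity)]
    nlinarith [mul_pos (pow_pos h0 3) (show 0 < 2 - h by linarith)]
  have m0 : (0 : ℝ) < m := by exact_mod_cast hm
  have c7 := mul_le_mul_of_nonneg_left h3 m0.le
  have c8 := mul_le_mul_of_nonneg_left
    (show Real.log (1 - 2 * h) - 2 * Real.log (1 - h) ≤ -h ^ 2 by push_cast at c5; linarith)
    (mul_pos q0 m0).le
  nlinarith [mul_pos (mul_pos m0 (pow_pos h0 2)) (show 0 < q - 1 by linarith)]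

end Pool.Agent.MP_737f38_pr.Bin

end
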